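import Pool.Agent.TwR.Lg

/-! rows DIG, COD: digits -/

namespace Pool.Agent.TwR

open Finset

-- BEGIN DIG
private theorem DIG_succ (s : ℕ → ℕ) (k : ℕ) : Bs s (k + 1) = Bs s k * (4 * s k) := by
  unfold Bs
  exact Finset.prod_range_succ _ _

theorem Bs_pos {s : ℕ → ℕ} (hs : ∀ j, 2 ≤ s j) (k : ℕ) : 0 < Bs s k := by
  unfold Bs
  refine Finset.prod_pos ?_
  intro i _
  have := hs i
  omega

/-- a number with digits below `4 s_j` is below the next place value -/
theorem sum_lt {s : ℕ → ℕ} (hs : ∀ j, 2 ≤ s j) {D : ℕ → ℕ} {K : ℕ}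
    (hD : ∀ j < K, D j < 4 * s j) : ∑ j ∈ range K, D j * Bs s j < Bs s K := by
  induction K with
  | zero =>
    rw [Finset.range_zero, Finset.sum_empty]
    exact Bs_pos hs 0
  | succ K ih =>
    rw [Finset.sum_range_succ, DIG_succ]
    have h1 := ih (fun j hj => hD j (by omega))
    have h2 : D K + 1 ≤ 4 * s K := hD K (by omega)
    have h3 : (D K + 1) * Bs s K ≤ 4 * s K * Bs s K := Nat.mul_le_mul_right _ h2
    calc ∑ j ∈ range K, D j * Bs s j + D K * Bs s K < Bs s K + D K * Bs s K :=
          Nat.add_lt_add_right h1 _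
      _ = (D K + 1) * Bs s K := by ring
      _ ≤ 4 * s K * Bs s K := h3
      _ = Bs s K * (4 * s K) := by ring

/-- the digits are determined by the number -/
theorem digits_unique {s : ℕ → ℕ} (hs : ∀ j, 2 ≤ s j) {D D' : ℕ → ℕ} {K : ℕ}
    (hD : ∀ j < K, D j < 4 * s j) (hD' : ∀ j < K, D' j < 4 * s j)
    (h : ∑ j ∈ range K, D j * Bs s j = ∑ j ∈ range K, D' j * Bs s j) :
    ∀ j < K, D j = D' j := by
  induction K with
  | zero =>
    intro j hj
    omega
  | succ K ih =>
    rw [Finset.sum_range_succ, Finset.sum_range_succ] at h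
    have h1 := sum_lt hs (fun j (hj : j < K) => hD j (by omega))
    have h2 := sum_lt hs (fun j (hj : j < K) => hD' j (by omega))
    have hB := Bs_pos hs K
    have hK : D K = D' K := by
      rcases lt_trichotomy (D K) (D' K) with hlt | heq | hgt
      · exfalso
        have h3 : (D K + 1) * Bs s K ≤ D' K * Bs s K := Nat.mul_le_mul_right _ hlt
        have h4 : (D K + 1) * Bs s K = D K * Bs s K + Bs s K := by ring
        omega
      · exact heq
      · exfalso
        have h3 : (D' K + 1) * Bs s K ≤ D K * Bs s K := Nat.mul_le_mul_right _ hgt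
        have h4 : (D' K + 1) * Bs s K = D' K * Bs s K + Bs s K := by ring
        omega
    rw [hK] at h
    have h5 := Nat.add_right_cancel h
    intro j hj
    by_cases hjK : j < K
    · exact ih (fun j hj => hD j (by omega)) (fun j hj => hD' j (by omega)) h5 j hjK
    · have : j = K := by omega
      rw [this]
      exact hK

theorem code_lt {s : ℕ → ℕ} (hs : ∀ j, 2 ≤ s j) (k p : ℕ) : code s k p < Bs s k := by
  unfold code
  refine sum_lt hs ?_
  intro j _
  have h1 := (lg_mem (hs j) p).2
  have h2 := hs j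
  omega

theorem code_pos {s : ℕ → ℕ} (hs : ∀ j, 2 ≤ s j) {k : ℕ} (hk : 0 < k) (p : ℕ) :
    0 < code s k p := by
  unfold code
  refine Finset.sum_pos ?_ ?_
  · intro j _
    have h1 := (lg_mem (hs j) p).1
    have h2 := hs j
    exact Nat.mul_pos (by omega) (Bs_pos hs j)
  · exact ⟨0, Finset.mem_range.2 hk⟩
-- END DIG

-- BEGIN COD
private theorem COD_ext (s : ℕ → ℕ) {k K : ℕ} (h : k ≤ K) (p : ℕ) :
    code s k p = ∑ j ∈ range K, (if j < k then lg (s j) p else 0) * Bs s j := by
  unfold code
  have h1 : ∑ j ∈ range k, (if j < k then lg (s j) p else 0) * Bs s j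
      = ∑ j ∈ range K, (if j < k then lg (s j) p else 0) * Bs s j :=
    Finset.sum_subset (Finset.range_mono h) (fun x _ hx => by
      rw [if_neg (fun hh => hx (Finset.mem_range.2 hh)), zero_mul])
  rw [← h1]
  exact Finset.sum_congr rfl (fun j hj => by rw [if_pos (Finset.mem_range.1 hj)])

private theorem COD_lt {s : ℕ → ℕ} (hs : ∀ j, 2 ≤ s j) (k p j : ℕ) :
    (if j < k then lg (s j) p else 0) ≤ 2 * s j - 2 := by
  split_ifs
  · exact (lg_mem (hs j) p).2
  · exact Nat.zero_le _

private theorem COD_sum (s : ℕ → ℕ) {k l K : ℕ} (hk : k ≤ K) (hl : l ≤ K) (p v : ℕ) :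
    code s k p + code s l v = ∑ j ∈ range K,
      ((if j < k then lg (s j) p else 0) + (if j < l then lg (s j) v else 0)) * Bs s j := by
  rw [COD_ext s hk, COD_ext s hl, ← Finset.sum_add_distrib]
  exact Finset.sum_congr rfl (fun j _ => by rw [add_mul])

private theorem COD_le {s : ℕ → ℕ} (hs : ∀ j, 2 ≤ s j) {k l k' l' p v p' v' : ℕ}
    (hl : l ≤ k) (h : ∀ j < max k k',
      (if j < k then lg (s j) p else 0) + (if j < l then lg (s j) v else 0)
      = (if j < k' then lg (s j) p' else 0) + (if j < l' then lg (s j) v' else 0)) :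
    k' ≤ k := by
  by_contra hc
  have hc : k < k' := not_le.1 hc
  have h1 := h k (lt_of_lt_of_le hc (le_max_right _ _))
  rw [if_neg (lt_irrefl k), if_neg (not_lt.2 hl), if_pos hc] at h1
  have h2 := (lg_mem (hs k) p').1
  have h3 := hs k
  omega

private theorem COD_le2 {s : ℕ → ℕ} (hs : ∀ j, 2 ≤ s j) {k l l' p v p' v' : ℕ}
    (hl' : l' ≤ k) (h : ∀ j < k,
      (if j < k then lg (s j) p else 0) + (if j < l then lg (s j) v else 0)
      = (if j < k then lg (s j) p' else 0) + (if j < l' then lg (s j) v' else 0)) :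
    l' ≤ l := by
  by_contra hc
  have hc : l < l' := not_le.1 hc
  have hk : l < k := lt_of_lt_of_le hc hl'
  have h1 := h l hk
  rw [if_pos hk, if_neg (lt_irrefl l), if_pos hk, if_pos hc] at h1
  have h2 := (lg_mem (hs l) p').1
  have h3 := (lg_mem (hs l) v').1
  have h4 := (lg_mem (hs l) p).2
  have h5 := hs l
  omega

/-- `code s k p = code s k' p'` forces `k = k'` and equal digits
(digits `< k` are in `[s_j, 2 s_j - 2]`, the others are `0`) -/
theorem code_inj {s : ℕ → ℕ} (hs : ∀ j, 2 ≤ s j) {k k' p p' : ℕ}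
    (h : code s k p = code s k' p') : k = k' ∧ ∀ j < k, lg (s j) p = lg (s j) p' := by
  have hD : ∀ j < max k k', (if j < k then lg (s j) p else 0) < 4 * s j := fun j _ => by
    have h1 := COD_lt hs k p j
    have h2 := hs j
    omega
  have hD' : ∀ j < max k k', (if j < k' then lg (s j) p' else 0) < 4 * s j := fun j _ => by
    have h1 := COD_lt hs k' p' j
    have h2 := hs j
    omega
  rw [COD_ext s (le_max_left k k'), COD_ext s (le_max_right k k')] at h
  have hu := digits_unique hs hD hD' h
  have e1 : k' ≤ k := COD_le (l := 0) (l' := 0) (v := 0) (v' := 0) hs (Nat.zero_le k)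
    (fun j hj => by
      rw [if_neg (Nat.not_lt_zero j)]
      exact hu j hj)
  have e2 : k ≤ k' := COD_le (l := 0) (l' := 0) (v := 0) (v' := 0) hs (Nat.zero_le k')
    (fun j hj => by
      rw [if_neg (Nat.not_lt_zero j)]
      rw [max_comm] at hj
      exact (hu j hj).symm)
  have e : k = k' := le_antisymm e2 e1
  subst e
  refine ⟨rfl, fun j hj => ?_⟩
  have h1 := hu j (lt_of_lt_of_le hj (le_max_left _ _))
  rwa [if_pos hj, if_pos hj] at h1

/-- the sum of two codes determines both levels and all digit sums: for `l <= k` the digits of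
`code s k p + code s l v` are in `[2 s_j, 4 s_j - 4]` for `j < l`, in `[s_j, 2 s_j - 2]` for
`l <= j < k` and `0` for `j >= k` (compare with `digits_unique`, `K = max k k'`) -/
theorem code_sum {s : ℕ → ℕ} (hs : ∀ j, 2 ≤ s j) {k l k' l' p v p' v' : ℕ} (hl : l ≤ k)
    (hl' : l' ≤ k') (h : code s k p + code s l v = code s k' p' + code s l' v') :
    k = k' ∧ l = l' ∧ (∀ j < l, lg (s j) p + lg (s j) v = lg (s j) p' + lg (s j) v') ∧
      ∀ j, l ≤ j → j < k → lg (s j) p = lg (s j) p' := by
  have hD : ∀ j < max k k',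
      (if j < k then lg (s j) p else 0) + (if j < l then lg (s j) v else 0) < 4 * s j :=
    fun j _ => by
      have h1 := COD_lt hs k p j
      have h2 := COD_lt hs l v j
      have h3 := hs j
      omega
  have hD' : ∀ j < max k k',
      (if j < k' then lg (s j) p' else 0) + (if j < l' then lg (s j) v' else 0) < 4 * s j :=
    fun j _ => by
      have h1 := COD_lt hs k' p' j
      have h2 := COD_lt hs l' v' j
      have h3 := hs j
      omega
  rw [COD_sum s (le_max_left k k') (hl.trans (le_max_left k k')),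
    COD_sum s (le_max_right k k') (hl'.trans (le_max_right k k'))] at h
  have hu := digits_unique hs hD hD' h
  have e1 : k' ≤ k := COD_le hs hl hu
  have e2 : k ≤ k' := COD_le hs hl' (fun j hj => by
    rw [max_comm] at hj
    exact (hu j hj).symm)
  have e : k = k' := le_antisymm e2 e1
  subst e
  rw [max_self] at hu
  have f1 : l' ≤ l := COD_le2 hs hl' hu
  have f2 : l ≤ l' := COD_le2 hs hl (fun j hj => (hu j hj).symm)
  have f : l = l' := le_antisymm f2 f1
  subst f
  refine ⟨rfl, rfl, fun j hj => ?_, fun j hj hk => ?_⟩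
  · have h1 := hu j (lt_of_lt_of_le hj hl)
    rwa [if_pos (lt_of_lt_of_le hj hl), if_pos (lt_of_lt_of_le hj hl), if_pos hj, if_pos hj] at h1
  · have h1 := hu j hk
    rwa [if_pos hk, if_pos hk, if_neg (not_lt.2 hj), if_neg (not_lt.2 hj), add_zero, add_zero] at h1
-- END COD

end Pool.Agent.TwR
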