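import Pool.Agent.TwR.Defs

/-! row ASY: the exponents of the moduli -/

namespace Pool.Agent.TwR

open Finset Filter

-- BEGIN ASY
private theorem ASY_ev {mu : ℝ} (h1 : 1 < mu) (a : ℕ) (K c : ℝ) (hc : 0 < c) :
    ∀ᶠ k : ℕ in atTop, K * ((k : ℝ) + 1) ^ a ≤ c * mu ^ k := by
  have h0 : 0 < mu := by linarith
  have h := tendsto_pow_const_div_const_pow_of_one_lt a h1
  have h2 : Tendsto (fun k : ℕ => ((k + 1 : ℕ) : ℝ) ^ a / mu ^ (k + 1)) atTop (nhds 0) :=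
    h.comp (tendsto_add_atTop_nat 1)
  have hK : 0 < c / ((|K| + 1) * mu) := by positivity
  filter_upwards [h2.eventually (gt_mem_nhds hK)] with k hk
  have hp : 0 < mu ^ (k + 1) := by positivity
  rw [div_lt_div_iff₀ hp (by positivity)] at hk
  push_cast at hk
  have hpos : 0 ≤ ((k : ℝ) + 1) ^ a := by positivity
  have h3 : K * ((k : ℝ) + 1) ^ a ≤ (|K| + 1) * ((k : ℝ) + 1) ^ a :=
    mul_le_mul_of_nonneg_right (by linarith [le_abs_self K]) hpos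
  have h4 : mu * ((|K| + 1) * ((k : ℝ) + 1) ^ a) ≤ mu * (c * mu ^ k) := by
    have e1 : mu * ((|K| + 1) * ((k : ℝ) + 1) ^ a) = ((k : ℝ) + 1) ^ a * ((|K| + 1) * mu) := by ring
    have e2 : mu * (c * mu ^ k) = c * mu ^ (k + 1) := by rw [pow_succ]; ring
    rw [e1, e2]
    exact hk.le
  have h5 := le_of_mul_le_mul_left h4 h0
  linarith

/-- `m j = ceil (C mu^j)` with `1 < mu < lam` and `C` large (`C (mu - 1) >= 3`, `C >= m0`):
`C (mu^k - 1) / (mu - 1) <= sg m k <= C (mu^k - 1) / (mu - 1) + k` -/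
theorem exists_m {lam : ℝ} (hl : 1 < lam) (m0 : ℕ) :
    ∃ m : ℕ → ℕ, (∀ j, m j + 2 ≤ m (j + 1)) ∧ m0 ≤ m 0 ∧
      (∀ A : ℝ, ∀ᶠ k : ℕ in atTop, A * ((k : ℝ) + 1) ^ 2 ≤ sg m k) ∧
      (∀ᶠ k : ℕ in atTop, (sg m (k + 1) : ℝ) + 2 * (k + 1) ≤ lam * sg m k) ∧
      ∃ D : ℕ, ∀ j, m j ≤ 2 ^ (D * (j + 1)) := by
  obtain ⟨mu, hmu1, hmul⟩ : ∃ mu : ℝ, 1 < mu ∧ mu < lam := exists_between hl
  have hmu0 : 0 < mu := by linarith
  have hd : 0 < mu - 1 := by linarith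
  obtain ⟨C, hC1, hC2, hC0⟩ : ∃ C : ℝ, 3 ≤ C * (mu - 1) ∧ (m0 : ℝ) ≤ C ∧ 0 < C := by
    refine ⟨3 / (mu - 1) + m0, ?_, ?_, by positivity⟩
    · rw [add_mul, div_mul_cancel₀ _ hd.ne']
      have : 0 ≤ (m0 : ℝ) * (mu - 1) := by positivity
      linarith
    · have : 0 < 3 / (mu - 1) := by positivity
      linarith
  have hlow : ∀ j : ℕ, C * mu ^ j ≤ ((⌈C * mu ^ j⌉₊ : ℕ) : ℝ) := fun j => Nat.le_ceil _
  have hup : ∀ j : ℕ, ((⌈C * mu ^ j⌉₊ : ℕ) : ℝ) ≤ C * mu ^ j + 1 := fun j =>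
    (Nat.ceil_lt_add_one (by positivity)).le
  have hone : ∀ j : ℕ, 1 ≤ mu ^ j := fun j => one_le_pow₀ hmu1.le
  have hgeo : ∀ k : ℕ, ∑ j ∈ range k, C * mu ^ j = C * ((mu ^ k - 1) / (mu - 1)) := by
    intro k
    rw [← Finset.mul_sum, geom_sum_eq hmu1.ne']
  have hsl : ∀ k : ℕ, C * ((mu ^ k - 1) / (mu - 1)) ≤
      (sg (fun j => ⌈C * mu ^ j⌉₊) k : ℝ) := by
    intro k
    rw [← hgeo k]
    unfold sg
    push_cast
    exact Finset.sum_le_sum fun j _ => hlow j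
  have hsu : ∀ k : ℕ, (sg (fun j => ⌈C * mu ^ j⌉₊) k : ℝ) ≤
      C * ((mu ^ k - 1) / (mu - 1)) + k := by
    intro k
    rw [← hgeo k]
    unfold sg
    push_cast
    calc (∑ j ∈ range k, ((⌈C * mu ^ j⌉₊ : ℕ) : ℝ)) ≤ ∑ j ∈ range k, (C * mu ^ j + 1) :=
          Finset.sum_le_sum fun j _ => hup j
      _ = ∑ j ∈ range k, C * mu ^ j + k := by
          rw [Finset.sum_add_distrib, Finset.sum_const, Finset.card_range, nsmul_eq_mul, mul_one]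
  refine ⟨fun j => ⌈C * mu ^ j⌉₊, ?_, ?_, ?_, ?_, ?_⟩
  · intro j
    have h1 : ((⌈C * mu ^ j⌉₊ : ℕ) : ℝ) + 2 ≤ ((⌈C * mu ^ (j + 1)⌉₊ : ℕ) : ℝ) := by
      have a1 := hup j
      have a2 := hlow (j + 1)
      have a3 : C * mu ^ (j + 1) = C * mu ^ j + C * (mu - 1) * mu ^ j := by rw [pow_succ]; ring
      have a4 : C * (mu - 1) ≤ C * (mu - 1) * mu ^ j :=
        le_mul_of_one_le_right (by positivity) (hone j)
      linarith
    exact_mod_cast h1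
  · have h1 : (m0 : ℝ) ≤ ((⌈C * mu ^ 0⌉₊ : ℕ) : ℝ) := by
      have := hlow 0
      simp only [pow_zero, mul_one] at this ⊢
      linarith
    exact_mod_cast h1
  · intro A
    have hA := ASY_ev hmu1 2 (|A| + C / (mu - 1)) (C / (mu - 1)) (by positivity)
    filter_upwards [hA] with k hk
    have h1 := hsl k
    have h2 : (1 : ℝ) ≤ ((k : ℝ) + 1) ^ 2 := one_le_pow₀ (by linarith [Nat.cast_nonneg (α := ℝ) k])
    have h3 : C * ((mu ^ k - 1) / (mu - 1)) = C / (mu - 1) * mu ^ k - C / (mu - 1) := by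
      field_simp
    have h4 : C / (mu - 1) ≤ C / (mu - 1) * ((k : ℝ) + 1) ^ 2 :=
      le_mul_of_one_le_right (by positivity) h2
    have h5 : A * ((k : ℝ) + 1) ^ 2 ≤ |A| * ((k : ℝ) + 1) ^ 2 :=
      mul_le_mul_of_nonneg_right (le_abs_self A) (by positivity)
    rw [h3] at h1
    rw [add_mul] at hk
    linarith
  · have hA := ASY_ev hmu1 1 (3 + C / (mu - 1) * (lam - 1)) (C / (mu - 1) * (lam - mu))
      (by have : 0 < lam - mu := by linarith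
          positivity)
    filter_upwards [hA] with k hk
    have h1 := hsl k
    have h2 := hsu (k + 1)
    push_cast at h2
    rw [pow_one] at hk
    have h3 : C * ((mu ^ k - 1) / (mu - 1)) = C / (mu - 1) * mu ^ k - C / (mu - 1) := by
      field_simp
    have h4 : C * ((mu ^ (k + 1) - 1) / (mu - 1)) =
        C / (mu - 1) * (mu ^ k * mu) - C / (mu - 1) := by
      rw [pow_succ]
      field_simp
    rw [h3] at h1
    rw [h4] at h2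
    have h5 : lam * (C / (mu - 1) * mu ^ k - C / (mu - 1)) ≤
        lam * (sg (fun j => ⌈C * mu ^ j⌉₊) k : ℝ) :=
      mul_le_mul_of_nonneg_left h1 (by linarith)
    have h6 : 0 ≤ C / (mu - 1) * (lam - 1) := by
      have : 0 < lam - 1 := by linarith
      positivity
    have h7 : C / (mu - 1) * (lam - 1) ≤ C / (mu - 1) * (lam - 1) * ((k : ℝ) + 1) :=
      le_mul_of_one_le_right h6 (by linarith [Nat.cast_nonneg (α := ℝ) k])
    rw [add_mul] at hk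
    have e1 : C / (mu - 1) * (lam - mu) * mu ^ k =
        lam * (C / (mu - 1) * mu ^ k) - C / (mu - 1) * (mu ^ k * mu) := by ring
    have e2 : lam * (C / (mu - 1) * mu ^ k - C / (mu - 1)) =
        lam * (C / (mu - 1) * mu ^ k) - C / (mu - 1) * (lam - 1) - C / (mu - 1) := by ring
    linarith
  · refine ⟨⌈C + 1⌉₊ + ⌈mu⌉₊, fun j => ?_⟩
    have hb1 : C + 1 ≤ (2 : ℝ) ^ (⌈C + 1⌉₊ + ⌈mu⌉₊) := by
      have a1 : C + 1 ≤ (⌈C + 1⌉₊ : ℝ) := Nat.le_ceil _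
      have a2 : ((⌈C + 1⌉₊ + ⌈mu⌉₊ : ℕ) : ℝ) < ((2 ^ (⌈C + 1⌉₊ + ⌈mu⌉₊) : ℕ) : ℝ) := by
        exact_mod_cast Nat.lt_two_pow_self
      push_cast at a2
      have a3 : (0 : ℝ) ≤ (⌈mu⌉₊ : ℝ) := Nat.cast_nonneg _
      linarith
    have hb2 : mu ≤ (2 : ℝ) ^ (⌈C + 1⌉₊ + ⌈mu⌉₊) := by
      have a1 : mu ≤ (⌈mu⌉₊ : ℝ) := Nat.le_ceil _
      have a2 : ((⌈C + 1⌉₊ + ⌈mu⌉₊ : ℕ) : ℝ) < ((2 ^ (⌈C + 1⌉₊ + ⌈mu⌉₊) : ℕ) : ℝ) := by
        exact_mod_cast Nat.lt_two_pow_self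
      push_cast at a2
      have a3 : (0 : ℝ) ≤ (⌈C + 1⌉₊ : ℝ) := Nat.cast_nonneg _
      linarith
    have h1 : ((⌈C * mu ^ j⌉₊ : ℕ) : ℝ) ≤ ((2 ^ ((⌈C + 1⌉₊ + ⌈mu⌉₊) * (j + 1)) : ℕ) : ℝ) := by
      push_cast
      calc ((⌈C * mu ^ j⌉₊ : ℕ) : ℝ) ≤ C * mu ^ j + 1 := hup j
        _ ≤ (C + 1) * mu ^ j := by
            rw [add_mul, one_mul]
            linarith [hone j]
        _ ≤ (2 : ℝ) ^ (⌈C + 1⌉₊ + ⌈mu⌉₊) * ((2 : ℝ) ^ (⌈C + 1⌉₊ + ⌈mu⌉₊)) ^ j :=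
            mul_le_mul hb1 (pow_le_pow_left₀ hmu0.le hb2 j) (by positivity) (by positivity)
        _ = (2 : ℝ) ^ ((⌈C + 1⌉₊ + ⌈mu⌉₊) * (j + 1)) := by
            rw [← pow_mul, ← pow_add]
            congr 1
            ring
    exact_mod_cast h1
-- END ASY

end Pool.Agent.TwR
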