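import Pool.Agent.TwR.Defs

/-! row PRM: primes in `(2^(m-2), 2^m]` (Chebyshev) -/

namespace Pool.Agent.TwR

open Finset

-- BEGIN PRM
private theorem PRM_pow {m : ℕ} (hm : 14 ≤ m) : 64 * m ^ 2 + 8 * m + 8 ≤ 2 ^ m := by
  induction m, hm using Nat.le_induction with
  | base => norm_num
  | succ k hk ih =>
    rw [pow_succ 2 k]
    nlinarith [ih, hk]

private theorem PRM_diff (q n : ℕ) (hqn : q ≤ n) :
    Chebyshev.theta (n : ℝ) = Chebyshev.theta (q : ℝ) +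
      ∑ p ∈ (Ioc q n).filter Nat.Prime, Real.log p := by
  have h1 : (Ioc 0 n).filter Nat.Prime =
      (Ioc 0 q).filter Nat.Prime ∪ (Ioc q n).filter Nat.Prime := by
    ext p
    simp only [mem_union, mem_filter, mem_Ioc]
    constructor
    · rintro ⟨⟨h0, h1⟩, h2⟩
      rcases le_or_gt p q with h | h
      · exact Or.inl ⟨⟨h0, h⟩, h2⟩
      · exact Or.inr ⟨⟨h, h1⟩, h2⟩
    · rintro (⟨⟨h0, h1⟩, h2⟩ | ⟨⟨h0, h1⟩, h2⟩)
      · exact ⟨⟨h0, h1.trans hqn⟩, h2⟩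
      · exact ⟨⟨by omega, h1⟩, h2⟩
  have h2 : Disjoint ((Ioc 0 q).filter Nat.Prime) ((Ioc q n).filter Nat.Prime) := by
    rw [Finset.disjoint_left]
    intro p hp hp'
    have h3 := (mem_Ioc.mp (mem_filter.mp hp).1).2
    have h4 := (mem_Ioc.mp (mem_filter.mp hp').1).1
    omega
  unfold Chebyshev.theta
  rw [Nat.floor_natCast, Nat.floor_natCast, h1, sum_union h2]

/-- Mathlib: `Chebyshev.theta_ge`, `Chebyshev.theta_le_log4_mul_x`:
`theta (2^m) - theta (2^(m-2)) >= 2^m (log 2 - log 4 / 4) - o(2^m)` and every prime up to `2^m`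
contributes at most `m log 2` -/
theorem card_Pr_ge : ∃ c : ℝ, 0 < c ∧ ∃ m0 : ℕ, ∀ m, m0 ≤ m → c * 2 ^ m / m ≤ (Pr m).card := by
  refine ⟨1 / 4, by norm_num, 14, fun m hm => ?_⟩
  have hl : 0 < Real.log 2 := Real.log_pos (by norm_num)
  have hqn : 2 ^ (m - 2) ≤ 2 ^ m := Nat.pow_le_pow_right (by norm_num) (by omega)
  have h1 := PRM_diff (2 ^ (m - 2)) (2 ^ m) hqn
  have h2 := Chebyshev.theta_ge (2 ^ m)
  have h3 := Chebyshev.theta_le_log4_mul_x (x := ((2 ^ (m - 2) : ℕ) : ℝ)) (by positivity)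
  have hq4 : ((2 ^ (m - 2) : ℕ) : ℝ) = 2 ^ m / 4 := by
    obtain ⟨k, rfl⟩ : ∃ k, m = k + 2 := ⟨m - 2, by omega⟩
    rw [Nat.add_sub_cancel]
    push_cast
    rw [pow_add]
    ring
  have hlog4 : Real.log 4 = 2 * Real.log 2 := by
    rw [show (4 : ℝ) = 2 ^ 2 by norm_num, Real.log_pow]
    norm_num
  have hn : ((2 ^ m : ℕ) : ℝ) = 2 ^ m := by push_cast; rfl
  have hsum : ∑ p ∈ (Ioc (2 ^ (m - 2)) (2 ^ m)).filter Nat.Prime, Real.log p ≤
      (Pr m).card * (m * Real.log 2) := by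
    rw [← nsmul_eq_mul]
    refine Finset.sum_le_card_nsmul _ _ _ fun p hp => ?_
    have hp1 := (mem_Ioc.mp (mem_filter.mp hp).1).2
    have hp2 := (mem_filter.mp hp).2
    have hp3 : (p : ℝ) ≤ 2 ^ m := by
      rw [← hn]
      exact_mod_cast hp1
    calc Real.log p ≤ Real.log (2 ^ m) := Real.log_le_log (by exact_mod_cast hp2.pos) hp3
      _ = m * Real.log 2 := by rw [Real.log_pow]
  have hlogn : Real.log (((2 ^ m : ℕ) : ℝ)) = m * Real.log 2 := by rw [hn, Real.log_pow]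
  have hlogn1 : Real.log (((2 ^ m : ℕ) : ℝ) + 1) ≤ (m + 1) * Real.log 2 := by
    have h5 : ((2 ^ m : ℕ) : ℝ) + 1 ≤ 2 ^ (m + 1) := by
      rw [hn, pow_succ]
      have : (1 : ℝ) ≤ 2 ^ m := one_le_pow₀ (by norm_num)
      linarith
    calc Real.log (((2 ^ m : ℕ) : ℝ) + 1) ≤ Real.log (2 ^ (m + 1)) :=
          Real.log_le_log (by positivity) h5
      _ = (m + 1) * Real.log 2 := by rw [Real.log_pow]; push_cast; ring
  have hsq : √(((2 ^ m : ℕ) : ℝ)) ^ 2 = 2 ^ m := by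
    rw [Real.sq_sqrt (by positivity), hn]
  have hs0 : 0 ≤ √(((2 ^ m : ℕ) : ℝ)) := Real.sqrt_nonneg _
  have hpow : (64 : ℝ) * m ^ 2 + 8 * m + 8 ≤ 2 ^ m := by
    have := PRM_pow hm
    exact_mod_cast this
  have hmpos : (0 : ℝ) < m := by
    have : 0 < m := by omega
    exact_mod_cast this
  set s : ℝ := √(((2 ^ m : ℕ) : ℝ)) with hs
  rw [hlogn] at h2
  rw [hn] at h2
  rw [hq4, hlog4] at h3
  rw [hq4, hn] at h1
  rw [hn] at hlogn1
  have h6 : 2 * s * m ≤ 2 ^ m / 8 + 8 * m ^ 2 := by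
    nlinarith [sq_nonneg (s - 8 * m), hsq]
  have h7 : (2 : ℝ) ^ m / 4 ≤ 2 ^ m / 2 - (m + 1) - 2 * s * m := by nlinarith [h6, hpow]
  have h8 : (2 : ℝ) ^ m / 4 * Real.log 2 ≤ (Pr m).card * (m * Real.log 2) := by
    have h9 := mul_le_mul_of_nonneg_right h7 hl.le
    have h10 : Chebyshev.theta (2 ^ m / 4 : ℝ) ≤ 2 * Real.log 2 * (2 ^ m / 4) := h3
    nlinarith [h1, h2, h10, hsum, hlogn1, h9]
  have h11 : (2 : ℝ) ^ m / 4 ≤ (Pr m).card * m := by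
    have h12 : (2 : ℝ) ^ m / 4 * Real.log 2 ≤ ((Pr m).card * m) * Real.log 2 := by
      rw [mul_assoc]
      exact h8
    exact le_of_mul_le_mul_right h12 hl
  rw [div_le_iff₀ hmpos]
  linarith
-- END PRM

end Pool.Agent.TwR
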