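import Pool.Agent.TwR.Exp
import Pool.Agent.TwR.Prm
import Pool.Agent.TwR.Asy

/-! The parameters. -/

namespace Pool.Agent.TwR

open Finset Filter

/-- the bound of `count` -/
noncomputable def bnd (U V Rm Wm WM : ℝ) : ℝ :=
  160 * U ^ 5 * V ^ 5 * WM / (Rm ^ 3 * Wm ^ 2) + 64 * U ^ 4 * V ^ 3 * WM / (Rm ^ 2 * Wm)

theorem bnd_rpow (a b c d e : ℝ) :
    bnd ((2 : ℝ) ^ a) ((2 : ℝ) ^ b) ((2 : ℝ) ^ c) ((2 : ℝ) ^ d) ((2 : ℝ) ^ e) ≤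
      (2 : ℝ) ^ (8 + 5 * a + 5 * b + e - 3 * c - 2 * d) +
        (2 : ℝ) ^ (6 + 4 * a + 3 * b + e - 2 * c - d) := by
  have h2 : (0 : ℝ) < 2 := by norm_num
  have hp : ∀ (z : ℝ) (n : ℕ), ((2 : ℝ) ^ z) ^ n = (2 : ℝ) ^ ((n : ℝ) * z) := by
    intro z n
    rw [← Real.rpow_natCast, ← Real.rpow_mul h2.le, mul_comm]
  unfold bnd
  refine add_le_add ?_ ?_
  · have h3 : (2 : ℝ) ^ (8 + 5 * a + 5 * b + e - 3 * c - 2 * d) =
        256 * ((2 : ℝ) ^ a) ^ 5 * ((2 : ℝ) ^ b) ^ 5 * (2 : ℝ) ^ e /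
          (((2 : ℝ) ^ c) ^ 3 * ((2 : ℝ) ^ d) ^ 2) := by
      rw [hp, hp, hp, hp]
      have h8 : (256 : ℝ) = (2 : ℝ) ^ (8 : ℝ) := by
        rw [show (8 : ℝ) = ((8 : ℕ) : ℝ) by norm_num, Real.rpow_natCast]; norm_num
      rw [h8, ← Real.rpow_add h2, ← Real.rpow_add h2, ← Real.rpow_add h2, ← Real.rpow_add h2,
        ← Real.rpow_sub h2]
      congr 1
      push_cast
      ring
    rw [h3]
    gcongr
    norm_num
  · have h3 : (2 : ℝ) ^ (6 + 4 * a + 3 * b + e - 2 * c - d) =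
        64 * ((2 : ℝ) ^ a) ^ 4 * ((2 : ℝ) ^ b) ^ 3 * (2 : ℝ) ^ e /
          (((2 : ℝ) ^ c) ^ 2 * (2 : ℝ) ^ d) := by
      rw [hp, hp, hp]
      have h8 : (64 : ℝ) = (2 : ℝ) ^ (6 : ℝ) := by
        rw [show (6 : ℝ) = ((6 : ℕ) : ℝ) by norm_num, Real.rpow_natCast]; norm_num
      rw [h8, ← Real.rpow_add h2, ← Real.rpow_add h2, ← Real.rpow_add h2, ← Real.rpow_add h2,
        ← Real.rpow_sub h2]
      congr 1
      push_cast
      ring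
    rw [h3]

/-- `m + 2 <= m'` all the way -/
theorem m_ge {m : ℕ → ℕ} (hm : ∀ j, m j + 2 ≤ m (j + 1)) (j : ℕ) : m 0 + 2 * j ≤ m j := by
  induction j with
  | zero => simp
  | succ j ih => have := hm j; omega

theorem sg_succ (m : ℕ → ℕ) (k : ℕ) : sg m (k + 1) = sg m k + m k := by
  unfold sg
  rw [Finset.sum_range_succ]

theorem sg_mono (m : ℕ → ℕ) : Monotone (sg m) :=
  monotone_nat_of_le_succ (fun k => by rw [sg_succ]; omega)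

theorem two_mul_le_sg {m : ℕ → ℕ} (hm : ∀ j, m j + 2 ≤ m (j + 1)) (hm0 : 2 ≤ m 0) (k : ℕ) :
    2 * k ≤ sg m k := by
  induction k with
  | zero => simp
  | succ k ih => rw [sg_succ]; have := m_ge hm k; omega

theorem sg_sub_ge {m : ℕ → ℕ} (hm : ∀ j, m j + 2 ≤ m (j + 1)) (hm0 : 2 ≤ m 0) {k l : ℕ}
    (hl : l ≤ k) : sg m l + 2 * (k - l) ≤ sg m k := by
  induction k, hl using Nat.le_induction with
  | base => simp
  | succ k hk ih => rw [sg_succ]; have := m_ge hm k; omega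

theorem sg_add_m_le {m : ℕ → ℕ} {k l : ℕ} (hl : l < k) : sg m l + m l ≤ sg m k := by
  rw [← sg_succ]
  exact sg_mono m hl

theorem sg_le_two_pow {m : ℕ → ℕ} {D : ℕ} (hD : ∀ j, m j ≤ 2 ^ (D * (j + 1))) (k : ℕ) :
    sg m k ≤ 2 ^ ((D + 1) * k) := by
  have h1 : sg m k ≤ k * 2 ^ (D * k) := by
    unfold sg
    calc ∑ j ∈ range k, m j ≤ ∑ j ∈ range k, 2 ^ (D * k) := by
          refine Finset.sum_le_sum (fun j hj => (hD j).trans ?_)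
          exact Nat.pow_le_pow_right (by norm_num)
            (Nat.mul_le_mul_left D (Finset.mem_range.1 hj))
      _ = k * 2 ^ (D * k) := by rw [Finset.sum_const, Finset.card_range, smul_eq_mul]
  calc sg m k ≤ k * 2 ^ (D * k) := h1
    _ ≤ 2 ^ k * 2 ^ (D * k) := Nat.mul_le_mul_right _ (Nat.lt_two_pow_self).le
    _ = 2 ^ ((D + 1) * k) := by rw [← pow_add]; congr 1; ring

/-- Chebyshev with powers of two -/
theorem Pr_lower {c : ℝ} {m0 g : ℕ} (hc : ∀ m, m0 ≤ m → c * 2 ^ m / m ≤ (Pr m).card)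
    (hg : (2 : ℝ) ^ (-(g : ℝ)) ≤ c) {m : ℕ} (hm : m0 ≤ m) (hm1 : 1 ≤ m) {d : ℝ}
    (hd : (m : ℝ) ≤ (2 : ℝ) ^ d) : (2 : ℝ) ^ ((m : ℝ) - g - d) ≤ (Pr m).card := by
  have h2 : (0 : ℝ) < 2 := by norm_num
  refine le_trans ?_ (hc m hm)
  have hm2 : (0 : ℝ) < m := by exact_mod_cast hm1
  rw [le_div_iff₀ hm2]
  have h3 : (2 : ℝ) ^ ((m : ℝ) - g - d) = (2 : ℝ) ^ (-(g : ℝ)) * 2 ^ m * ((2 : ℝ) ^ d)⁻¹ := by
    rw [← Real.rpow_neg h2.le, ← Real.rpow_natCast 2 m, ← Real.rpow_add h2, ← Real.rpow_add h2]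
    congr 1
    ring
  rw [h3]
  have h4 : ((2 : ℝ) ^ d)⁻¹ * m ≤ 1 := by
    rw [inv_mul_le_iff₀ (Real.rpow_pos_of_pos h2 d), mul_one]
    exact hd
  have h5 : (0 : ℝ) ≤ (2 : ℝ) ^ (-(g : ℝ)) * 2 ^ m := by positivity
  calc (2 : ℝ) ^ (-(g : ℝ)) * 2 ^ m * ((2 : ℝ) ^ d)⁻¹ * m
      = (2 : ℝ) ^ (-(g : ℝ)) * 2 ^ m * (((2 : ℝ) ^ d)⁻¹ * m) := by ring
    _ ≤ (2 : ℝ) ^ (-(g : ℝ)) * 2 ^ m * 1 := mul_le_mul_of_nonneg_left h4 h5
    _ ≤ c * 2 ^ m := by rw [mul_one]; gcongr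

theorem prod_lower {c : ℝ} {m0 g : ℕ} (hc : ∀ m, m0 ≤ m → c * 2 ^ m / m ≤ (Pr m).card)
    (hg : (2 : ℝ) ^ (-(g : ℝ)) ≤ c) {m : ℕ → ℕ} (hm : ∀ j, m j + 2 ≤ m (j + 1)) (hm0 : m0 ≤ m 0)
    (hm2 : 2 ≤ m 0) {D : ℕ} (hD : ∀ j, m j ≤ 2 ^ (D * (j + 1))) (k : ℕ) :
    (2 : ℝ) ^ ((sg m k : ℝ) - ((D : ℝ) + g) * ((k : ℝ) + 1) ^ 2) ≤
      ∏ j ∈ range k, ((Pr (m j)).card : ℝ) := by
  have h2 : (0 : ℝ) < 2 := by norm_num
  have hgD : (0 : ℝ) ≤ (D : ℝ) + g := by positivity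
  induction k with
  | zero =>
    rw [Finset.range_zero, Finset.prod_empty]
    refine Real.rpow_le_one_of_one_le_of_nonpos (by norm_num) ?_
    have : sg m 0 = 0 := by simp [sg]
    rw [this]
    push_cast
    nlinarith
  | succ k ih =>
    rw [Finset.prod_range_succ]
    have h3 : (2 : ℝ) ^ ((m k : ℝ) - g - (D : ℝ) * (k + 1)) ≤ (Pr (m k)).card := by
      refine Pr_lower hc hg ((hm0.trans (by have := m_ge hm k; omega)))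
        (by have := m_ge hm k; omega) ?_
      have h4 := hD k
      calc (m k : ℝ) ≤ ((2 ^ (D * (k + 1)) : ℕ) : ℝ) := by exact_mod_cast h4
        _ = (2 : ℝ) ^ ((D : ℝ) * (k + 1)) := by
          rw [Nat.cast_pow, ← Real.rpow_natCast]
          push_cast
          rfl
    calc (2 : ℝ) ^ ((sg m (k + 1) : ℝ) - ((D : ℝ) + g) * (((k + 1 : ℕ) : ℝ) + 1) ^ 2)
        ≤ (2 : ℝ) ^ (((sg m k : ℝ) - ((D : ℝ) + g) * ((k : ℝ) + 1) ^ 2) +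
            ((m k : ℝ) - g - (D : ℝ) * (k + 1))) := by
          refine Real.rpow_le_rpow_of_exponent_le (by norm_num) ?_
          rw [sg_succ]
          push_cast
          have h5 : (0 : ℝ) ≤ k := Nat.cast_nonneg k
          have h6 : (0 : ℝ) ≤ D := Nat.cast_nonneg D
          have h7 : (0 : ℝ) ≤ g := Nat.cast_nonneg g
          nlinarith [mul_nonneg h6 h5, mul_nonneg h7 h5]
      _ = (2 : ℝ) ^ ((sg m k : ℝ) - ((D : ℝ) + g) * ((k : ℝ) + 1) ^ 2) *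
            (2 : ℝ) ^ ((m k : ℝ) - g - (D : ℝ) * (k + 1)) := Real.rpow_add h2 _ _
      _ ≤ (∏ j ∈ range k, ((Pr (m j)).card : ℝ)) * (Pr (m k)).card :=
          mul_le_mul ih h3 (Real.rpow_nonneg h2.le _)
            (Finset.prod_nonneg (fun j _ => Nat.cast_nonneg _))

end Pool.Agent.TwR
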