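import Pool.Agent.TwR.Dig

/-! row CRT: congruences modulo products -/

namespace Pool.Agent.TwR

open Finset

-- BEGIN CRT
/-- congruences modulo distinct primes give a congruence modulo the product -/
theorem modEq_prod {s : ℕ → ℕ} (hs : ∀ j, (s j).Prime) (hinj : Function.Injective s)
    {J : Finset ℕ} {a b : ℕ} (h : ∀ j ∈ J, a ≡ b [MOD s j]) : a ≡ b [MOD ∏ j ∈ J, s j] := by
  rw [Nat.modEq_iff_dvd, Nat.cast_prod]
  refine Finset.prod_dvd_of_coprime ?_ fun j hj => Nat.modEq_iff_dvd.1 (h j hj)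
  intro i _ j _ hij
  exact Nat.isCoprime_iff_coprime.2 ((Nat.coprime_primes (hs i) (hs j)).2 (hinj.ne hij))

/-- `p`, `p'` of equal large digits and `p v`, `p' v'` of equal small digit sums -/
theorem code_sum_modEq {s : ℕ → ℕ} (hs : ∀ j, (s j).Prime) (hinj : Function.Injective s)
    {k l k' l' p v p' v' : ℕ} (hl : l ≤ k) (hl' : l' ≤ k')
    (hp : ∀ j < k, ¬ s j ∣ p) (hp' : ∀ j < k', ¬ s j ∣ p') (hv : ∀ j < l, ¬ s j ∣ v)
    (hv' : ∀ j < l', ¬ s j ∣ v')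
    (h : code s k p + code s l v = code s k' p' + code s l' v') :
    k = k' ∧ l = l' ∧ p * v ≡ p' * v' [MOD ∏ j ∈ range l, s j] ∧
      p ≡ p' [MOD ∏ j ∈ Ico l k, s j] := by
  obtain ⟨h1, h2, h3, h4⟩ := code_sum (fun j => (hs j).two_le) hl hl' h
  subst h1
  subst h2
  refine ⟨rfl, rfl, modEq_prod hs hinj fun j hj => ?_, modEq_prod hs hinj fun j hj => ?_⟩
  · have hj' : j < l := Finset.mem_range.1 hj
    have hjk : j < k := lt_of_lt_of_le hj' hl
    exact lg_mul (hs j) (hp j hjk) (hv j hj') (hp' j hjk) (hv' j hj') (h3 j hj')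
  · have hj' := Finset.mem_Ico.1 hj
    exact lg_inj (hs j) (hp j hj'.2) (hp' j hj'.2) (h4 j hj'.1 hj'.2)

theorem code_inj_modEq {s : ℕ → ℕ} (hs : ∀ j, (s j).Prime) (hinj : Function.Injective s)
    {k k' p p' : ℕ} (hp : ∀ j < k, ¬ s j ∣ p) (hp' : ∀ j < k', ¬ s j ∣ p')
    (h : code s k p = code s k' p') : k = k' ∧ p ≡ p' [MOD ∏ j ∈ range k, s j] := by
  obtain ⟨h1, h2⟩ := code_inj (fun j => (hs j).two_le) h
  subst h1
  refine ⟨rfl, modEq_prod hs hinj fun j hj => ?_⟩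
  have hj' : j < k := Finset.mem_range.1 hj
  exact lg_inj (hs j) (hp j hj') (hp' j hj') (h2 j hj')
-- END CRT

end Pool.Agent.TwR
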