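import Pool.Agent.TwR.Defs

/-! row SEL: choosing the moduli -/

namespace Pool.Agent.TwR

open Finset

-- BEGIN SELA
theorem mem_Sq {Q : ℕ → Finset ℕ} {k : ℕ} {s : ℕ → ℕ} (h : s ∈ Sq Q k) :
    (∀ j < k, s j ∈ Q j) ∧ ∀ j, k ≤ j → s j = 0 := by
  classical
  induction k generalizing s with
  | zero =>
    unfold Sq at h
    rw [mem_singleton] at h
    subst h
    exact ⟨fun j hj => absurd hj (Nat.not_lt_zero j), fun j _ => rfl⟩
  | succ k ih =>
    unfold Sq at h
    obtain ⟨⟨t, q⟩, ht, rfl⟩ := mem_image.1 h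
    obtain ⟨ht, hq⟩ := mem_product.1 ht
    have h1 := ih ht
    refine ⟨fun j hj => ?_, fun j hj => ?_⟩
    · rcases Nat.lt_succ_iff_lt_or_eq.1 hj with hj | rfl
      · rw [Function.update_of_ne (by omega)]
        exact h1.1 j hj
      · rw [Function.update_self]
        exact hq
    · rw [Function.update_of_ne (by omega)]
      exact h1.2 j (by omega)

private theorem SELA_inj (Q : ℕ → Finset ℕ) (k : ℕ) :
    Set.InjOn (fun x : (ℕ → ℕ) × ℕ => Function.update x.1 k x.2) (Sq Q k ×ˢ Q k : Finset ((ℕ → ℕ) × ℕ)) := by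
  rintro ⟨t, q⟩ h ⟨t', q'⟩ h' he
  have h1 := mem_Sq (mem_product.1 (mem_coe.1 h)).1
  have h2 := mem_Sq (mem_product.1 (mem_coe.1 h')).1
  have h3 := congrFun he
  have h4 : q = q' := by
    have := h3 k
    simpa only [Function.update_self] using this
  have h5 : t = t' := by
    funext j
    rcases eq_or_ne j k with rfl | hj
    · exact (h1.2 j le_rfl).trans (h2.2 j le_rfl).symm
    · have := h3 j
      simpa only [Function.update_of_ne hj] using this
  rw [h4, h5]

theorem card_Sq (Q : ℕ → Finset ℕ) (k : ℕ) : (Sq Q k).card = ∏ j ∈ range k, (Q j).card := by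
  classical
  induction k with
  | zero =>
    unfold Sq
    rw [card_singleton, range_zero, prod_empty]
  | succ k ih =>
    rw [prod_range_succ, ← ih, ← card_product]
    conv_lhs => unfold Sq
    exact card_image_of_injOn (SELA_inj Q k)

/-- a function that depends only on the first `k` terms -/
theorem sum_Sq_succ {Q : ℕ → Finset ℕ} {k : ℕ} {f : (ℕ → ℕ) → ℝ}
    (hloc : ∀ s s' : ℕ → ℕ, (∀ j < k, s j = s' j) → f s = f s') :
    ∑ s ∈ Sq Q (k + 1), f s = (Q k).card * ∑ s ∈ Sq Q k, f s := by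
  classical
  have h1 : ∑ s ∈ Sq Q (k + 1), f s = ∑ x ∈ Sq Q k ×ˢ Q k, f (Function.update x.1 k x.2) := by
    conv_lhs => unfold Sq
    exact sum_image (SELA_inj Q k)
  rw [h1, sum_product, mul_sum]
  refine sum_congr rfl fun t _ => ?_
  rw [← nsmul_eq_mul, ← sum_const]
  refine sum_congr rfl fun q _ => hloc _ _ fun j hj => ?_
  rw [Function.update_of_ne (by omega)]
-- END SELA

-- BEGIN SELB
private theorem SELB_avg {Q : ℕ → Finset ℕ} {f : ℕ → (ℕ → ℕ) → ℝ}
    (hloc : ∀ k, ∀ s s' : ℕ → ℕ, (∀ j < k, s j = s' j) → f k s = f k s')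
    (h : ∀ k, ∑ s ∈ Sq Q k, f k s ≤ (1 / 2) ^ (k + 1) * (Sq Q k).card) (k m : ℕ) (hkm : k ≤ m) :
    ∑ s ∈ Sq Q m, f k s ≤ (1 / 2) ^ (k + 1) * (Sq Q m).card := by
  induction m, hkm using Nat.le_induction with
  | base => exact h k
  | succ m hm ih =>
    rw [sum_Sq_succ (fun s s' hss => hloc k s s' fun j hj => hss j (lt_of_lt_of_le hj hm))]
    have h1 : ((Sq Q (m + 1)).card : ℝ) = (Q m).card * (Sq Q m).card := by
      rw [card_Sq, card_Sq, Finset.prod_range_succ]
      push_cast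
      ring
    rw [h1]
    have h2 := mul_le_mul_of_nonneg_left ih (Nat.cast_nonneg (Q m).card : (0 : ℝ) ≤ (Q m).card)
    linarith

private theorem SELB_geo (K : ℕ) :
    ∑ k ∈ range (K + 1), ((1 : ℝ) / 2) ^ (k + 1) = 1 - (1 / 2) ^ (K + 1) := by
  induction K with
  | zero => norm_num
  | succ K ih =>
    rw [Finset.sum_range_succ, ih]
    ring

/-- finite selection: by `sum_Sq_succ`, the average of `f k` over `Sq Q K`, `K >= k`, is the
average over `Sq Q k`, at most `(1/2)^(k+1)`; the sum over `k <= K` is below `1` -/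
theorem select_fin {Q : ℕ → Finset ℕ} {f : ℕ → (ℕ → ℕ) → ℝ}
    (hloc : ∀ k, ∀ s s' : ℕ → ℕ, (∀ j < k, s j = s' j) → f k s = f k s')
    (hpos : ∀ k s, 0 ≤ f k s) (hne : ∀ k, (Q k).Nonempty)
    (h : ∀ k, ∑ s ∈ Sq Q k, f k s ≤ (1 / 2) ^ (k + 1) * (Sq Q k).card) (K : ℕ) :
    ∃ s : ℕ → ℕ, (∀ j < K, s j ∈ Q j) ∧ ∀ k ≤ K, f k s < 1 := by
  have hN : (0 : ℝ) < (Sq Q K).card := by
    rw [card_Sq]
    exact_mod_cast Finset.prod_pos fun j _ => Finset.card_pos.2 (hne j)
  have h1 : ∑ s ∈ Sq Q K, ∑ k ∈ range (K + 1), f k s < ∑ _s ∈ Sq Q K, (1 : ℝ) := by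
    rw [Finset.sum_comm, Finset.sum_const, nsmul_eq_mul, mul_one]
    calc ∑ k ∈ range (K + 1), ∑ s ∈ Sq Q K, f k s
        ≤ ∑ k ∈ range (K + 1), (1 / 2 : ℝ) ^ (k + 1) * (Sq Q K).card :=
          Finset.sum_le_sum fun k hk =>
            SELB_avg hloc h k K (Nat.lt_succ_iff.1 (Finset.mem_range.1 hk))
      _ = (1 - (1 / 2 : ℝ) ^ (K + 1)) * (Sq Q K).card := by
          rw [← Finset.sum_mul, SELB_geo]
      _ < (Sq Q K).card := by
          have h2 : (0 : ℝ) < (1 / 2) ^ (K + 1) := by positivity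
          nlinarith
  obtain ⟨s, hs, hs1⟩ := Finset.exists_lt_of_sum_lt h1
  refine ⟨s, (mem_Sq hs).1, fun k hk => lt_of_le_of_lt ?_ hs1⟩
  exact Finset.single_le_sum (f := fun k => f k s) (fun i _ => hpos i s)
    (Finset.mem_range.2 (Nat.lt_succ_iff.2 hk))
-- END SELB

-- BEGIN SELC
/-- infinite selection by compactness (Koenig): the `Q j` are finite, `f k` depends on the first
`k` terms only -/
theorem select {Q : ℕ → Finset ℕ} {f : ℕ → (ℕ → ℕ) → ℝ}
    (hloc : ∀ k, ∀ s s' : ℕ → ℕ, (∀ j < k, s j = s' j) → f k s = f k s')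
    (hpos : ∀ k s, 0 ≤ f k s) (hne : ∀ k, (Q k).Nonempty)
    (h : ∀ k, ∑ s ∈ Sq Q k, f k s ≤ (1 / 2) ^ (k + 1) * (Sq Q k).card) :
    ∃ s : ℕ → ℕ, (∀ j, s j ∈ Q j) ∧ ∀ k, f k s < 1 := by
  classical
  let X := (j : ℕ) → {x // x ∈ Q j}
  let _ : ∀ j, TopologicalSpace {x // x ∈ Q j} := fun _ => ⊥
  have : ∀ j, DiscreteTopology {x // x ∈ Q j} := fun _ => ⟨rfl⟩
  let vl : X → ℕ → ℕ := fun s j => (s j).1
  let C : ℕ → Set X := fun K => {s | ∀ k ≤ K, f k (vl s) < 1}
  have hmono : ∀ K, C (K + 1) ⊆ C K := fun K s hs k hk => hs k (hk.trans (Nat.le_succ K))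
  have hcl : ∀ K, IsClosed (C K) := by
    intro K
    let r : X → ((j : Fin K) → {x // x ∈ Q j}) := fun s j => s j
    have hr : Continuous r := continuous_pi (fun j => continuous_apply (j : ℕ))
    have hpre : C K = r ⁻¹' {t | ∃ s : X, r s = t ∧ s ∈ C K} := by
      ext s
      constructor
      · intro hs
        exact ⟨s, rfl, hs⟩
      · rintro ⟨s', hs', hC⟩ k hk
        rw [← hloc k (vl s') (vl s)]
        · exact hC k hk
        · intro j hj
          have := congrFun hs' ⟨j, hj.trans_le hk⟩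
          exact congrArg Subtype.val this
    rw [hpre]
    exact (isClosed_discrete _).preimage hr
  have hnon : ∀ K, (C K).Nonempty := by
    intro K
    obtain ⟨s, hs, hf⟩ := select_fin hloc hpos hne h K
    refine ⟨fun j => if hj : j < K then ⟨s j, hs j hj⟩ else ⟨(hne j).choose, (hne j).choose_spec⟩, ?_⟩
    intro k hk
    rw [hloc k _ s]
    · exact hf k hk
    · intro j hj
      show (if hj : j < K then (⟨s j, hs j hj⟩ : {x // x ∈ Q j})
        else ⟨(hne j).choose, (hne j).choose_spec⟩).1 = s j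
      rw [dif_pos (hj.trans_le hk)]
  have : ∀ j, Finite {x // x ∈ Q j} := fun j => inferInstance
  have : ∀ j, CompactSpace {x // x ∈ Q j} := fun j => Finite.compactSpace
  obtain ⟨s, hs⟩ := IsCompact.nonempty_iInter_of_sequence_nonempty_isCompact_isClosed C hmono hnon
    ((hcl 0).isCompact) hcl
  exact ⟨vl s, fun j => (s j).2, fun k => Set.mem_iInter.1 hs k k le_rfl⟩
-- END SELC

end Pool.Agent.TwR
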