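import Pool.Agent.TwR.Cfg
import Pool.Agent.TwR.Crt
import Pool.Agent.TwR.Sel

/-! rows BDA, BDB: the removed primes -/

namespace Pool.Agent.TwR

open Finset

-- BEGIN BDA
private theorem BDA_mem {n p : ℕ} (hn : 2 ≤ n) (h : p ∈ Pr n) :
    p.Prime ∧ 2 ^ n < 4 * p ∧ p ≤ 2 ^ n := by
  unfold Pr at h
  rw [mem_filter, mem_Ioc] at h
  obtain ⟨⟨h1, h2⟩, h3⟩ := h
  obtain ⟨n', rfl⟩ := Nat.exists_eq_add_of_le hn
  rw [Nat.add_sub_cancel_left] at h1
  refine ⟨h3, ?_, h2⟩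
  rw [pow_add]
  omega

private theorem BDA_m2 {m : ℕ → ℕ} (hm : ∀ j, m j + 2 ≤ m (j + 1)) (hm0 : 2 ≤ m 0) (j : ℕ) :
    2 ≤ m j := by
  induction j with
  | zero => exact hm0
  | succ j ih =>
    have := hm j
    omega

private theorem BDA_mono {m : ℕ → ℕ} (hm : ∀ j, m j + 2 ≤ m (j + 1)) {i j : ℕ} (hij : i < j) :
    m i + 2 ≤ m j := by
  induction j with
  | zero => exact absurd hij (Nat.not_lt_zero i)
  | succ j ih =>
    rcases Nat.lt_succ_iff_lt_or_eq.1 hij with h | h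
    · have h1 := ih h
      have h2 := hm j
      omega
    · subst h
      exact hm i

/-- the intervals of the moduli are disjoint and increasing -/
theorem Pr_lt {m : ℕ → ℕ} (hm : ∀ j, m j + 2 ≤ m (j + 1)) {i j : ℕ} (hij : i < j) {q q' : ℕ}
    (hq : q ∈ Pr (m i)) (hq' : q' ∈ Pr (m j)) : q < q' := by
  unfold Pr at hq hq'
  rw [mem_filter, mem_Ioc] at hq hq'
  have h1 := BDA_mono hm hij
  have h2 : 2 ^ m i ≤ 2 ^ (m j - 2) := Nat.pow_le_pow_right (by norm_num) (by omega)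
  exact hq.1.2.trans_lt (h2.trans_lt hq'.1.1)

private theorem BDA_sg {m : ℕ → ℕ} (hm2 : ∀ j, 2 ≤ m j) {l k : ℕ} (hl : l ≤ k) :
    sg m l + 2 * (k - l) ≤ sg m k := by
  induction k, hl using Nat.le_induction with
  | base => simp
  | succ k hk ih =>
    have h1 : sg m (k + 1) = sg m k + m k := by
      unfold sg
      rw [sum_range_succ]
    have h2 := hm2 k
    omega

theorem prod_range_bounds {m s : ℕ → ℕ} {k : ℕ} (hm2 : ∀ j, 2 ≤ m j)
    (hs : ∀ j < k, s j ∈ Pr (m j)) :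
    2 ^ (sg m k - 2 * k) ≤ ∏ j ∈ range k, s j ∧ ∏ j ∈ range k, s j ≤ 2 ^ sg m k := by
  induction k with
  | zero =>
    rw [range_zero, prod_empty]
    have h1 : sg m 0 = 0 := by
      unfold sg
      rw [range_zero, sum_empty]
    rw [h1]
    simp
  | succ k ih =>
    obtain ⟨h1, h2⟩ := ih fun j hj => hs j (Nat.lt_succ_of_lt hj)
    have h3 : sg m (k + 1) = sg m k + m k := by
      unfold sg
      rw [sum_range_succ]
    have h4 := hm2 k
    have h5 := BDA_sg hm2 (Nat.zero_le k)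
    have h6 := hs k (Nat.lt_succ_self k)
    unfold Pr at h6
    rw [mem_filter, mem_Ioc] at h6
    have h7 : sg m (k + 1) - 2 * (k + 1) = (sg m k - 2 * k) + (m k - 2) := by omega
    rw [prod_range_succ, h7, h3, pow_add, pow_add]
    exact ⟨Nat.mul_le_mul h1 h6.1.1.le, Nat.mul_le_mul h2 h6.1.2⟩

theorem prod_Ico_bounds {m s : ℕ → ℕ} {k l : ℕ} (hl : l ≤ k) (hm2 : ∀ j, 2 ≤ m j)
    (hs : ∀ j < k, s j ∈ Pr (m j)) :
    2 ^ (sg m k - sg m l - 2 * (k - l)) ≤ ∏ j ∈ Ico l k, s j ∧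
      ∏ j ∈ Ico l k, s j ≤ 2 ^ (sg m k - sg m l) := by
  induction k, hl using Nat.le_induction with
  | base =>
    rw [Ico_self, prod_empty]
    simp
  | succ k hk ih =>
    obtain ⟨h1, h2⟩ := ih fun j hj => hs j (Nat.lt_succ_of_lt hj)
    have h3 : sg m (k + 1) = sg m k + m k := by
      unfold sg
      rw [sum_range_succ]
    have h4 := hm2 k
    have h5 := BDA_sg hm2 hk
    have h6 := hs k (Nat.lt_succ_self k)
    unfold Pr at h6
    rw [mem_filter, mem_Ioc] at h6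
    have h7 : sg m (k + 1) - sg m l - 2 * (k + 1 - l) =
        (sg m k - sg m l - 2 * (k - l)) + (m k - 2) := by omega
    have h8 : sg m (k + 1) - sg m l = (sg m k - sg m l) + m k := by omega
    rw [prod_Ico_succ_top hk, h7, h8, pow_add, pow_add]
    exact ⟨Nat.mul_le_mul h1 h6.1.1.le, Nat.mul_le_mul h2 h6.1.2⟩

private theorem BDA_cop {s : ℕ → ℕ} {J : Finset ℕ} {p : ℕ} (hs : ∀ j ∈ J, (s j).Prime)
    (h : ∀ j ∈ J, ¬ s j ∣ p) : p.Coprime (∏ j ∈ J, s j) :=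
  Nat.Coprime.prod_right fun j hj => ((Nat.Prime.coprime_iff_not_dvd (hs j hj)).2 (h j hj)).symm

/-- every tuple of `tupS` is a configuration -/
theorem cfg_of_mem {m u s : ℕ → ℕ} {k l : ℕ} (hm : ∀ j, m j + 2 ≤ m (j + 1)) (hm0 : 2 ≤ m 0)
    (hl : l ≤ k) (hul : 2 ≤ u l) (huk : 2 ≤ u k) (hs : ∀ j < k, s j ∈ Pr (m j)) {x : Tup}
    (hx : x ∈ tupS (fun k => Pr (u k)) s k l) :
    Cfg (2 ^ u k) (2 ^ u l) (2 ^ (sg m l - 2 * l)) (2 ^ (sg m k - sg m l - 2 * (k - l)))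
      (2 ^ (sg m k - sg m l)) x := by
  classical
  have hm2 := BDA_m2 hm hm0
  have hpr : ∀ j < k, (s j).Prime := fun j hj => (BDA_mem (hm2 j) (hs j hj)).1
  unfold tupS at hx
  rw [mem_filter, mem_image] at hx
  obtain ⟨⟨⟨a0, a1, a2, b0, b1, b2⟩, hy, rfl⟩, hbad, hp, hv⟩ := hx
  simp only [mem_product] at hy
  obtain ⟨h0, h1, h2, g0, g1, g2⟩ := hy
  have hr := prod_range_bounds (m := m) (s := s) (k := l) hm2 fun j hj => hs j (hj.trans_le hl)
  have hw := prod_Ico_bounds (m := m) (s := s) hl hm2 hs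
  have r1 : ∀ j ∈ range l, (s j).Prime := fun j hj => hpr j ((mem_range.1 hj).trans_le hl)
  have w1 : ∀ j ∈ Ico l k, (s j).Prime := fun j hj => hpr j (mem_Ico.1 hj).2
  have r2 : ∀ j ∈ range l, j < k := fun j hj => (mem_range.1 hj).trans_le hl
  have w2 : ∀ j ∈ Ico l k, j < k := fun j hj => (mem_Ico.1 hj).2
  have r3 : ∀ j ∈ range l, j < l := fun j hj => mem_range.1 hj
  exact
    { bad := hbad
      p0 := BDA_mem huk h0
      p1 := BDA_mem huk h1
      p2 := BDA_mem huk h2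
      v0 := BDA_mem hul g0
      v1 := BDA_mem hul g1
      v2 := BDA_mem hul g2
      rm := hr.1
      wm := hw.1
      wM := hw.2
      cp0 := ⟨BDA_cop r1 fun j hj => (hp j (r2 j hj)).1, BDA_cop w1 fun j hj => (hp j (w2 j hj)).1⟩
      cp1 := ⟨BDA_cop r1 fun j hj => (hp j (r2 j hj)).2.1, BDA_cop w1 fun j hj => (hp j (w2 j hj)).2.1⟩
      cp2 := ⟨BDA_cop r1 fun j hj => (hp j (r2 j hj)).2.2, BDA_cop w1 fun j hj => (hp j (w2 j hj)).2.2⟩
      cv0 := BDA_cop r1 fun j hj => (hv j (r3 j hj)).1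
      cv1 := BDA_cop r1 fun j hj => (hv j (r3 j hj)).2.1
      cv2 := BDA_cop r1 fun j hj => (hv j (r3 j hj)).2.2
      rw := by
        show (∏ j ∈ range l, s j).Coprime (∏ j ∈ Ico l k, s j)
        refine Nat.Coprime.prod_left fun i hi => Nat.Coprime.prod_right fun j hj => ?_
        have h3 := Pr_lt hm ((mem_range.1 hi).trans_le (mem_Ico.1 hj).1) (hs i (r2 i hi))
          (hs j (w2 j hj))
        exact (Nat.coprime_primes (r1 i hi) (w1 j hj)).2 h3.ne }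
-- END BDA

-- BEGIN BDB
private theorem BDB_rw {P : ℕ → Finset ℕ} {s : ℕ → ℕ} {k l : ℕ} {x : Tup} (hx : x ∈ tupS P s k l) :
    x.r = ∏ j ∈ range l, s j ∧ x.w = ∏ j ∈ Ico l k, s j := by
  classical
  unfold tupS at hx
  obtain ⟨y, -, rfl⟩ := mem_image.1 (mem_filter.1 hx).1
  exact ⟨rfl, rfl⟩

private theorem BDB_eq {m s s' : ℕ → ℕ} (hm : ∀ j, m j + 2 ≤ m (j + 1)) {k : ℕ} {A : Finset ℕ}
    (hA : ∀ j ∈ A, j < k) (hs : ∀ j < k, s j ∈ Pr (m j)) (hs' : ∀ j < k, s' j ∈ Pr (m j))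
    (h : ∏ j ∈ A, s j = ∏ j ∈ A, s' j) : ∀ j ∈ A, s j = s' j := by
  intro j hj
  have hp : ∀ {t : ℕ → ℕ}, (∀ j < k, t j ∈ Pr (m j)) → ∀ j ∈ A, (t j).Prime := by
    intro t ht j hj
    have h0 := ht j (hA j hj)
    unfold Pr at h0
    exact (mem_filter.1 h0).2
  have h1 : s j ∣ ∏ i ∈ A, s' i := h ▸ dvd_prod_of_mem s hj
  obtain ⟨i, hi, hd⟩ := (Prime.dvd_finsetProd_iff (hp hs j hj).prime s').1 h1
  have he : s j = s' i := (Nat.prime_dvd_prime_iff_eq (hp hs j hj) (hp hs' i hi)).1 hd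
  rcases lt_trichotomy i j with hij | hij | hij
  · have := Pr_lt hm hij (hs' i (hA i hi)) (hs j (hA j hj))
    omega
  · rw [he, hij]
  · have := Pr_lt hm hij (hs j (hA j hj)) (hs' i (hA i hi))
    omega

/-- `T` = the union of the `tupS s k l`, a disjoint union because the two products `x.r`, `x.w`
determine `s` (unique factorization and `Pr_lt`) -/
theorem exists_T {m u : ℕ → ℕ} {k l : ℕ} (hm : ∀ j, m j + 2 ≤ m (j + 1)) (hm0 : 2 ≤ m 0)
    (hl : l ≤ k) (hul : 2 ≤ u l) (huk : 2 ≤ u k) :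
    ∃ T : Finset Tup,
      (∀ x ∈ T, Cfg (2 ^ u k) (2 ^ u l) (2 ^ (sg m l - 2 * l))
        (2 ^ (sg m k - sg m l - 2 * (k - l))) (2 ^ (sg m k - sg m l)) x) ∧
      ∑ s ∈ Sq (fun j => Pr (m j)) k, (tupS (fun k => Pr (u k)) s k l).card = T.card := by
  classical
  refine ⟨(Sq (fun j => Pr (m j)) k).biUnion (fun s => tupS (fun k => Pr (u k)) s k l), ?_, ?_⟩
  · intro x hx
    obtain ⟨s, hs, hx⟩ := mem_biUnion.1 hx
    exact cfg_of_mem hm hm0 hl hul huk (mem_Sq hs).1 hx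
  · symm
    apply card_biUnion
    intro s hs s' hs' hne
    refine disjoint_left.2 fun x hx hx' => hne ?_
    have h1 := BDB_rw hx
    have h2 := BDB_rw hx'
    have h3 := mem_Sq hs
    have h4 := mem_Sq hs'
    have h5 := BDB_eq hm (A := range l) (k := k) (fun j hj => (mem_range.1 hj).trans_le hl)
      h3.1 h4.1 (h1.1.symm.trans h2.1)
    have h6 := BDB_eq hm (A := Ico l k) (k := k) (fun j hj => (mem_Ico.1 hj).2)
      h3.1 h4.1 (h1.2.symm.trans h2.2)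
    funext j
    rcases lt_or_ge j l with hj | hj
    · exact h5 j (mem_range.2 hj)
    · rcases lt_or_ge j k with hj' | hj'
      · exact h6 j (mem_Ico.2 ⟨hj, hj'⟩)
      · rw [h3.2 j hj', h4.2 j hj']
-- END BDB

-- BEGIN BDC
theorem tupS_congr {P : ℕ → Finset ℕ} {s s' : ℕ → ℕ} {k l : ℕ} (hl : l ≤ k)
    (h : ∀ j < k, s j = s' j) : tupS P s k l = tupS P s' k l := by
  classical
  have h1 : ∏ j ∈ range l, s j = ∏ j ∈ range l, s' j :=
    Finset.prod_congr rfl fun j hj => h j (lt_of_lt_of_le (mem_range.1 hj) hl)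
  have h2 : ∏ j ∈ Ico l k, s j = ∏ j ∈ Ico l k, s' j :=
    Finset.prod_congr rfl fun j hj => h j (mem_Ico.1 hj).2
  ext x
  simp only [tupS, mem_filter, h1, h2]
  refine and_congr_right fun _ => and_congr_right fun _ => and_congr ?_ ?_
  · exact forall_congr' fun j => forall_congr' fun hj => by rw [h j hj]
  · exact forall_congr' fun j => forall_congr' fun hj => by rw [h j (lt_of_lt_of_le hj hl)]

/-- at most `k` primes are divisible by one of `s_0, ..., s_(k-1)` -/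
theorem card_Bad_le {P : ℕ → Finset ℕ} {s : ℕ → ℕ} (hs : ∀ j, (s j).Prime)
    (hP : ∀ k, ∀ p ∈ P k, p.Prime) (k0 k : ℕ) :
    (Bad P k0 s k).card ≤ k + ∑ l ∈ Ico k0 k, (tupS P s k l).card := by
  classical
  have hsub : Bad P k0 s k ⊆ (range k).image s ∪
      (Ico k0 k).biUnion (fun l => (tupS P s k l).image (fun x : Tup => x.p0)) := by
    intro p hp
    obtain ⟨hp1, hp2⟩ := mem_filter.1 hp
    rcases hp2 with ⟨j, hj, hd⟩ | ⟨l, hl0, hl1, x, hx, hxp⟩
    · refine mem_union_left _ (mem_image.2 ⟨j, mem_range.2 hj, ?_⟩)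
      exact (Nat.prime_dvd_prime_iff_eq (hs j) (hP k p hp1)).1 hd
    · refine mem_union_right _ (mem_biUnion.2 ⟨l, mem_Ico.2 ⟨hl0, hl1⟩, ?_⟩)
      exact mem_image.2 ⟨x, hx, hxp⟩
  refine (card_le_card hsub).trans ((card_union_le _ _).trans (add_le_add ?_ ?_))
  · exact card_image_le.trans (by rw [card_range])
  · exact card_biUnion_le.trans (Finset.sum_le_sum fun l _ => card_image_le)
-- END BDC

end Pool.Agent.TwR
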