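import Pool.Agent.TwR.Defs

/-! rows CFA, CFB, CFC: counting triple coincidences -/

namespace Pool.Agent.TwR

open Finset

-- BEGIN CFA
private theorem CFA_eq {p q v u : ℕ} (hp : p.Prime) (hq : q.Prime) (hu0 : 0 < u) (hup : u < p)
    (h : p * v = q * u) : p = q ∧ v = u := by
  have h1 : p ∣ q * u := ⟨v, h.symm⟩
  have h2 : p = q := by
    rcases hp.dvd_mul.1 h1 with h3 | h3
    · exact (Nat.prime_dvd_prime_iff_eq hp hq).1 h3
    · exact absurd (Nat.le_of_dvd hu0 h3) (not_le.2 hup)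
  refine ⟨h2, ?_⟩
  rw [h2] at h
  exact Nat.eq_of_mul_eq_mul_left hq.pos h

private theorem CFA_small {a n : ℤ} (h : n ∣ a) (hlt : |a| < n) : a = 0 :=
  Int.eq_zero_of_abs_lt_dvd h hlt

private theorem CFA_modEq {a b n : ℕ} (h : a ≡ b [MOD n]) : (n : ℤ) ∣ (a : ℤ) - b :=
  (Nat.modEq_iff_dvd.1 h.symm)

/-- The two determinant identities.  `k_i = (p_i v_i - p_0 v_0) / r`, `e_i = (p_i - p_0) / w`,
`t = (k_1 (v_2 - v_0) - k_2 (v_1 - v_0)) / w`.  (`k_1 [p_0 (v_2 - v_0) + w e_2 v_2]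
= k_2 [p_0 (v_1 - v_0) + w e_1 v_1]`, and `p_0` is prime to `w`.)
Nonvanishing: `p_i v_i = p_j v_j` forces equal pairs (primes, `v <= V < p`); `p_i = p_j` forces
`r | v_i - v_j`, `|v_i - v_j| < V < r`; `v_i = v_j` forces `r w | p_i - p_j`, `U < r w`. -/
theorem data {U V Rm Wm WM : ℕ} (hN : Num U V Rm Wm) {x : Tup} (hx : Cfg U V Rm Wm WM x) :
    ∃ k1 k2 e1 e2 t : ℤ,
      (x.p1 : ℤ) = x.p0 + x.w * e1 ∧ (x.p2 : ℤ) = x.p0 + x.w * e2 ∧
      (x.p1 : ℤ) * x.v1 = x.p0 * x.v0 + x.r * k1 ∧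
      (x.p2 : ℤ) * x.v2 = x.p0 * x.v0 + x.r * k2 ∧
      k1 * ((x.v2 : ℤ) - x.v0) - k2 * ((x.v1 : ℤ) - x.v0) = x.w * t ∧
      k1 * e2 * x.v2 - k2 * e1 * x.v1 = - (x.p0 * t) ∧
      k1 ≠ 0 ∧ k2 ≠ 0 ∧ e1 ≠ 0 ∧ e2 ≠ 0 ∧ x.v1 ≠ x.v2 ∧
      |k1| * Rm ≤ U * V ∧ |k2| * Rm ≤ U * V ∧ |e1| * Wm ≤ U ∧ |e2| * Wm ≤ U ∧
      |t| * (Rm * Wm) ≤ 2 * U * V * V := by
  obtain ⟨⟨b1, b2, b3, b4, b5, b6, b7⟩, hp0, hp1, hp2, hv0, hv1, hv2, hrm, hwm, -, cp0, cp1, cp2,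
    cv0, cv1, cv2, hrw⟩ := hx
  obtain ⟨V1, UV, RV, W0, big⟩ := hN
  obtain ⟨r, w, p0, p1, p2, v0, v1, v2⟩ := x
  simp only at *
  have hw0 : 0 < w := lt_of_lt_of_le W0 hwm
  have hr0 : 0 < r := lt_of_lt_of_le (by omega) hrm
  have hv0' := hv0.1.pos
  have hv1' := hv1.1.pos
  have hv2' := hv2.1.pos
  have hp0' := hp0.1.pos
  have hp1' := hp1.1.pos
  have hp2' := hp2.1.pos
  obtain ⟨e1, he1⟩ := CFA_modEq b1
  obtain ⟨e2, he2⟩ := CFA_modEq b2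
  obtain ⟨k1, hk1⟩ := CFA_modEq b3
  obtain ⟨k2, hk2⟩ := CFA_modEq b4
  push_cast at hk1 hk2
  have E1 : (p1 : ℤ) = p0 + w * e1 := by linarith
  have E2 : (p2 : ℤ) = p0 + w * e2 := by linarith
  have K1 : (p1 : ℤ) * v1 = p0 * v0 + r * k1 := by linarith
  have K2 : (p2 : ℤ) * v2 = p0 * v0 + r * k2 := by linarith
  have hwZ : (0 : ℤ) < w := by exact_mod_cast hw0
  have hrZ : (0 : ℤ) < r := by exact_mod_cast hr0
  -- the determinant identity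
  have D1 : (p0 : ℤ) * (v1 - v0) + w * e1 * v1 = r * k1 := by
    have := K1
    rw [E1] at this
    linarith
  have D2 : (p0 : ℤ) * (v2 - v0) + w * e2 * v2 = r * k2 := by
    have := K2
    rw [E2] at this
    linarith
  have D3 : (p0 : ℤ) * (k1 * ((v2 : ℤ) - v0) - k2 * ((v1 : ℤ) - v0))
      = w * (k2 * e1 * v1 - k1 * e2 * v2) := by
    have e : k1 * ((p0 : ℤ) * (v2 - v0) + w * e2 * v2)
        = k2 * ((p0 : ℤ) * (v1 - v0) + w * e1 * v1) := by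
      rw [D1, D2]; ring
    linear_combination e
  have hcop : IsCoprime (w : ℤ) (p0 : ℤ) := Nat.isCoprime_iff_coprime.2 cp0.2.symm
  have hdvd : (w : ℤ) ∣ k1 * ((v2 : ℤ) - v0) - k2 * ((v1 : ℤ) - v0) := by
    refine hcop.dvd_of_dvd_mul_left ?_
    rw [D3]
    exact dvd_mul_right _ _
  obtain ⟨t, ht⟩ := hdvd
  have T2 : k1 * e2 * v2 - k2 * e1 * v1 = -((p0 : ℤ) * t) := by
    rw [ht] at D3
    have h1 : (w : ℤ) * (p0 * t) = w * (k2 * e1 * v1 - k1 * e2 * v2) := by linarith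
    have h2 := mul_left_cancel₀ hwZ.ne' h1
    linarith
  -- the bounds on the differences
  have hp_le : ∀ {a b : ℕ}, a ≤ U → b ≤ U → |(a : ℤ) - b| ≤ U := by
    intro a b ha hb
    rw [abs_le]
    constructor <;> omega
  have hpv : ∀ {a b c d : ℕ}, a ≤ U → b ≤ V → c ≤ U → d ≤ V →
      |(a : ℤ) * b - c * d| ≤ U * V := by
    intro a b c d ha hb hc hd
    have h1 : ((a * b : ℕ) : ℤ) ≤ ((U * V : ℕ) : ℤ) := by exact_mod_cast Nat.mul_le_mul ha hb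
    have h2 : ((c * d : ℕ) : ℤ) ≤ ((U * V : ℕ) : ℤ) := by exact_mod_cast Nat.mul_le_mul hc hd
    have h3 : (0 : ℤ) ≤ ((a * b : ℕ) : ℤ) := Int.natCast_nonneg _
    have h4 : (0 : ℤ) ≤ ((c * d : ℕ) : ℤ) := Int.natCast_nonneg _
    push_cast at h1 h2 h3 h4
    rw [abs_le]
    constructor <;> linarith
  have hV_lt : ∀ {a b : ℕ}, a ≤ V → b ≤ V → 0 < a → 0 < b → |(a : ℤ) - b| < V := by
    intro a b ha hb ha0 hb0
    rw [abs_lt]
    constructor <;> omega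
  have hU_lt : ∀ {a b : ℕ}, a ≤ U → b ≤ U → 0 < a → 0 < b → |(a : ℤ) - b| < U := by
    intro a b ha hb ha0 hb0
    rw [abs_lt]
    constructor <;> omega
  have hRr : (Rm : ℤ) ≤ r := by exact_mod_cast hrm
  have hWw : (Wm : ℤ) ≤ w := by exact_mod_cast hwm
  have hkb : ∀ {k a b c d : ℤ}, a * b - c * d = r * k → |a * b - c * d| ≤ U * V →
      |k| * Rm ≤ U * V := by
    intro k a b c d h1 h2
    rw [h1, abs_mul, abs_of_pos hrZ] at h2
    have h3 : |k| * (Rm : ℤ) ≤ |k| * r := mul_le_mul_of_nonneg_left hRr (abs_nonneg k)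
    linarith
  have heb : ∀ {e a b : ℤ}, a - b = w * e → |a - b| ≤ U → |e| * Wm ≤ U := by
    intro e a b h1 h2
    rw [h1, abs_mul, abs_of_pos hwZ] at h2
    have h3 : |e| * (Wm : ℤ) ≤ |e| * w := mul_le_mul_of_nonneg_left hWw (abs_nonneg e)
    linarith
  have B1 : |k1| * Rm ≤ U * V := hkb hk1 (hpv hp1.2.2 hv1.2.2 hp0.2.2 hv0.2.2)
  have B2 : |k2| * Rm ≤ U * V := hkb hk2 (hpv hp2.2.2 hv2.2.2 hp0.2.2 hv0.2.2)
  have B3 : |e1| * Wm ≤ U := heb he1 (hp_le hp1.2.2 hp0.2.2)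
  have B4 : |e2| * Wm ≤ U := heb he2 (hp_le hp2.2.2 hp0.2.2)
  -- nonvanishing
  have nk : ∀ {p v : ℕ} {k : ℤ}, p.Prime → U < 4 * p → (p : ℤ) * v = p0 * v0 + r * k →
      ¬ (p = p0 ∧ v = v0) → k ≠ 0 := by
    intro p v k hp hpU h1 h2 h3
    rw [h3, mul_zero, add_zero] at h1
    have h4 : p * v = p0 * v0 := by exact_mod_cast h1
    exact h2 (CFA_eq hp hp0.1 hv0' (by have := hv0.2.2; omega) h4)
  have ne : ∀ {p v : ℕ} {e k : ℤ}, 0 < v → v ≤ V → (p : ℤ) = p0 + w * e →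
      (p0 : ℤ) * (v - v0) + w * e * v = r * k → ¬ (p = p0 ∧ v = v0) → e ≠ 0 := by
    intro p v e k hvp hvV h1 h2 h3 h4
    rw [h4] at h1 h2
    have h5 : p = p0 := by
      have : (p : ℤ) = p0 := by linarith
      exact_mod_cast this
    have h6 : (r : ℤ) ∣ (v : ℤ) - v0 := by
      refine IsCoprime.dvd_of_dvd_mul_left (Nat.isCoprime_iff_coprime.2 cp0.1.symm) ?_
      exact ⟨k, by linarith⟩
    have h7 := CFA_small h6 (lt_of_lt_of_le (hV_lt hvV hv0.2.2 hvp hv0') (by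
      have : (V : ℤ) < Rm := by exact_mod_cast RV
      linarith))
    exact h3 ⟨h5, by omega⟩
  have nv : v1 ≠ v2 := by
    intro h
    subst h
    have h1 : (r : ℤ) ∣ (p1 : ℤ) - p2 := by
      refine IsCoprime.dvd_of_dvd_mul_right (Nat.isCoprime_iff_coprime.2 cv1.symm) ?_
      exact ⟨k1 - k2, by linarith⟩
    have h2 : (w : ℤ) ∣ (p1 : ℤ) - p2 := ⟨e1 - e2, by linarith⟩
    have h3 : (r : ℤ) * w ∣ (p1 : ℤ) - p2 :=
      IsCoprime.mul_dvd (Nat.isCoprime_iff_coprime.2 hrw) h1 h2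
    have h4 : (U : ℤ) < r * w := by
      have h5 : U < Rm * Wm := by
        have h51 : U * 1 ≤ (8 * U) * V := Nat.mul_le_mul (by omega) V1
        rw [mul_one] at h51
        exact lt_of_le_of_lt h51 big
      have h6 : Rm * Wm ≤ r * w := Nat.mul_le_mul hrm hwm
      exact_mod_cast lt_of_lt_of_le h5 h6
    have h5 := CFA_small h3 (lt_trans (hU_lt hp1.2.2 hp2.2.2 hp1' hp2') h4)
    exact b7 ⟨by omega, rfl⟩
  refine ⟨k1, k2, e1, e2, t, E1, E2, K1, K2, ht, T2, nk hp1.1 hp1.2.1 K1 b5,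
    nk hp2.1 hp2.2.1 K2 b6, ne hv1' hv1.2.2 E1 D1 b5, ne hv2' hv2.2.2 E2 D2 b6, nv,
    B1, B2, B3, B4, ?_⟩
  have h1 : (w : ℤ) * |t| ≤ (|k1| + |k2|) * V := by
    have h2 : |(w : ℤ) * t| = w * |t| := by rw [abs_mul, abs_of_pos hwZ]
    rw [← h2, ← ht]
    have h3 : |k1 * ((v2 : ℤ) - v0)| ≤ |k1| * V := by
      rw [abs_mul]
      exact mul_le_mul_of_nonneg_left (hV_lt hv2.2.2 hv0.2.2 hv2' hv0').le (abs_nonneg _)
    have h4 : |k2 * ((v1 : ℤ) - v0)| ≤ |k2| * V := by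
      rw [abs_mul]
      exact mul_le_mul_of_nonneg_left (hV_lt hv1.2.2 hv0.2.2 hv1' hv0').le (abs_nonneg _)
    calc |k1 * ((v2 : ℤ) - v0) - k2 * ((v1 : ℤ) - v0)|
        ≤ |k1 * ((v2 : ℤ) - v0)| + |k2 * ((v1 : ℤ) - v0)| := abs_sub _ _
      _ ≤ (|k1| + |k2|) * V := by linarith
  have hV0 : (0 : ℤ) ≤ V := Int.natCast_nonneg _
  have hR0 : (0 : ℤ) ≤ Rm := Int.natCast_nonneg _
  calc |t| * ((Rm : ℤ) * Wm) = Rm * (Wm * |t|) := by ring
    _ ≤ Rm * (w * |t|) :=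
        mul_le_mul_of_nonneg_left (mul_le_mul_of_nonneg_right hWw (abs_nonneg t)) hR0
    _ ≤ Rm * ((|k1| + |k2|) * V) := mul_le_mul_of_nonneg_left h1 hR0
    _ = (|k1| * Rm + |k2| * Rm) * V := by ring
    _ ≤ (U * V + U * V) * V := mul_le_mul_of_nonneg_right (by linarith) hV0
    _ = 2 * U * V * V := by ring
-- END CFA

-- BEGIN CFB
private theorem CFB_mem {a : ℤ} {R M : ℕ} (hR : 0 < R) (ha : a ≠ 0) (h : |a| * R ≤ M) :
    a ∈ (Icc (-((M / R : ℕ) : ℤ)) ((M / R : ℕ) : ℤ)).erase 0 := by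
  have h1 : |a| ≤ ((M / R : ℕ) : ℤ) := by
    rw [Int.natCast_div]
    exact Int.le_ediv_of_mul_le (by exact_mod_cast hR) h
  rw [mem_erase, mem_Icc]
  exact ⟨ha, (abs_le.1 h1).1, (abs_le.1 h1).2⟩

private theorem CFB_card (R M : ℕ) :
    (((Icc (-((M / R : ℕ) : ℤ)) ((M / R : ℕ) : ℤ)).erase 0).card : ℝ) ≤ 2 * ((M : ℝ) / R) := by
  have h0 : ∀ n : ℕ, ((Icc (-(n : ℤ)) (n : ℤ)).erase 0).card = 2 * n := by
    intro n
    rw [card_erase_of_mem (mem_Icc.2 ⟨by omega, by omega⟩), Int.card_Icc]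
    omega
  have h1 : ((Icc (-((M / R : ℕ) : ℤ)) ((M / R : ℕ) : ℤ)).erase 0).card = 2 * (M / R) := h0 (M / R)
  rw [h1, Nat.cast_mul, Nat.cast_ofNat]
  exact mul_le_mul_of_nonneg_left Nat.cast_div_le (by norm_num)

/-- The number of triple coincidences with `t ≠ 0` (`t` as in `data`): the tuple is determined by
`(k1, k2, w, v0, v1, t, e1, p0 / v2)`: `v2` from `k1 (v2 - v0) = w t + k2 (v1 - v0)`, `p0` modulo
`v2` from `p0 t = k2 e1 v1 (mod v2)` (`v2` prime, `|t| < v2` by `Num.big`), then `e2`, `p1`, `p2`,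
`r`.  Box: `2K * 2K * WM * V * V * 2T * 2E * (5U/V)` with `K = UV/Rm`, `E = U/Wm`,
`T = 2UV^2/(Rm Wm)` (the number of nonzero integers of absolute value at most `y` is at most
`2y`; `p0 / v2 <= 4U/V`, so there are at most `5U/V` values because `4V <= U`). -/
theorem countA {U V Rm Wm WM : ℕ} (hN : Num U V Rm Wm) {T : Finset Tup}
    (hT : ∀ x ∈ T, Cfg U V Rm Wm WM x)
    (ht : ∀ x ∈ T, ((x.p1 : ℤ) * x.v1 - x.p0 * x.v0) / x.r * ((x.v2 : ℤ) - x.v0) ≠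
      ((x.p2 : ℤ) * x.v2 - x.p0 * x.v0) / x.r * ((x.v1 : ℤ) - x.v0)) :
    (T.card : ℝ) ≤ 160 * U ^ 5 * V ^ 5 * WM / (Rm ^ 3 * Wm ^ 2) := by
  classical
  have hV : 0 < V := hN.V1
  have hU : 0 < U := by have := hN.UV; omega
  have hR : 0 < Rm := lt_of_le_of_lt (Nat.zero_le _) hN.RV
  have hW : 0 < Wm := hN.W0
  let K1 : Tup → ℤ := fun x => ((x.p1 : ℤ) * x.v1 - x.p0 * x.v0) / x.r
  let K2 : Tup → ℤ := fun x => ((x.p2 : ℤ) * x.v2 - x.p0 * x.v0) / x.r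
  let E1 : Tup → ℤ := fun x => ((x.p1 : ℤ) - x.p0) / x.w
  let TT : Tup → ℤ := fun x => (K1 x * ((x.v2 : ℤ) - x.v0) - K2 x * ((x.v1 : ℤ) - x.v0)) / x.w
  have key : ∀ x ∈ T, ∃ e2 : ℤ, (x.p1 : ℤ) = x.p0 + x.w * E1 x ∧ (x.p2 : ℤ) = x.p0 + x.w * e2 ∧
      (x.p1 : ℤ) * x.v1 = x.p0 * x.v0 + x.r * K1 x ∧
      (x.p2 : ℤ) * x.v2 = x.p0 * x.v0 + x.r * K2 x ∧
      K1 x * ((x.v2 : ℤ) - x.v0) - K2 x * ((x.v1 : ℤ) - x.v0) = x.w * TT x ∧
      K1 x * e2 * x.v2 - K2 x * E1 x * x.v1 = - (x.p0 * TT x) ∧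
      K1 x ≠ 0 ∧ K2 x ≠ 0 ∧ E1 x ≠ 0 ∧ TT x ≠ 0 ∧
      |K1 x| * Rm ≤ U * V ∧ |K2 x| * Rm ≤ U * V ∧ |E1 x| * Wm ≤ U ∧
      |TT x| * (Rm * Wm) ≤ 2 * U * V * V := by
    intro x hx
    have hc := hT x hx
    obtain ⟨k1, k2, e1, e2, t, h1, h2, h3, h4, h5, h6, h7, h8, h9, h10, h11, h12, h13, h14, h15,
      h16⟩ := data hN hc
    have hr : (x.r : ℤ) ≠ 0 := by
      have := hc.rm
      have : 0 < x.r := by omega
      exact_mod_cast this.ne'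
    have hw : (x.w : ℤ) ≠ 0 := by
      have := hc.wm
      have : 0 < x.w := by omega
      exact_mod_cast this.ne'
    have e_1 : K1 x = k1 := by
      show ((x.p1 : ℤ) * x.v1 - x.p0 * x.v0) / x.r = k1
      rw [h3, add_sub_cancel_left, Int.mul_ediv_cancel_left _ hr]
    have e_2 : K2 x = k2 := by
      show ((x.p2 : ℤ) * x.v2 - x.p0 * x.v0) / x.r = k2
      rw [h4, add_sub_cancel_left, Int.mul_ediv_cancel_left _ hr]
    have e_3 : E1 x = e1 := by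
      show ((x.p1 : ℤ) - x.p0) / x.w = e1
      rw [h1, add_sub_cancel_left, Int.mul_ediv_cancel_left _ hw]
    have e_4 : TT x = t := by
      show (K1 x * ((x.v2 : ℤ) - x.v0) - K2 x * ((x.v1 : ℤ) - x.v0)) / x.w = t
      rw [e_1, e_2, h5, Int.mul_ediv_cancel_left _ hw]
    have e_5 : t ≠ 0 := by
      intro h0
      apply ht x hx
      change K1 x * ((x.v2 : ℤ) - x.v0) = K2 x * ((x.v1 : ℤ) - x.v0)
      rw [e_1, e_2, ← sub_eq_zero, h5, h0, mul_zero]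
    rw [e_1, e_2, e_3, e_4]
    exact ⟨e2, h1, h2, h3, h4, h5, h6, h7, h8, h9, e_5, h12, h13, h14, h16⟩
  let F : Tup → ℤ × ℤ × ℤ × ℤ × ℕ × ℕ × ℕ × ℕ := fun x =>
    (K1 x, K2 x, E1 x, TT x, x.w, x.v0, x.v1, x.p0 / x.v2)
  let B : Finset (ℤ × ℤ × ℤ × ℤ × ℕ × ℕ × ℕ × ℕ) :=
    ((Icc (-((U * V / Rm : ℕ) : ℤ)) ((U * V / Rm : ℕ) : ℤ)).erase 0) ×ˢ
    ((Icc (-((U * V / Rm : ℕ) : ℤ)) ((U * V / Rm : ℕ) : ℤ)).erase 0) ×ˢ
    ((Icc (-((U / Wm : ℕ) : ℤ)) ((U / Wm : ℕ) : ℤ)).erase 0) ×ˢ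
    ((Icc (-((2 * U * V * V / (Rm * Wm) : ℕ) : ℤ)) ((2 * U * V * V / (Rm * Wm) : ℕ) : ℤ)).erase 0) ×ˢ
    (Icc 1 WM) ×ˢ (Icc 1 V) ×ˢ (Icc 1 V) ×ˢ (range (4 * U / V + 1))
  have hcard : T.card ≤ B.card := by
    refine Finset.card_le_card_of_injOn F ?_ ?_
    · intro x hx
      have hx' : x ∈ T := hx
      obtain ⟨e2, h1, h2, h3, h4, h5, h6, h7, h8, h9, h10, h12, h13, h14, h16⟩ := key x hx'
      have hc := hT x hx'
      have m1 := CFB_mem (M := U * V) hR h7 (by push_cast; exact h12)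
      have m2 := CFB_mem (M := U * V) hR h8 (by push_cast; exact h13)
      have m3 := CFB_mem (M := U) hW h9 h14
      have m4 := CFB_mem (R := Rm * Wm) (M := 2 * U * V * V) (Nat.mul_pos hR hW) h10
        (by push_cast; exact h16)
      have hw1 : 0 < x.w := by have := hc.wm; omega
      have m5 : x.w ∈ Icc 1 WM := mem_Icc.2 ⟨hw1, hc.wM⟩
      have m6 : x.v0 ∈ Icc 1 V := mem_Icc.2 ⟨hc.v0.1.one_lt.le, hc.v0.2.2⟩
      have m7 : x.v1 ∈ Icc 1 V := mem_Icc.2 ⟨hc.v1.1.one_lt.le, hc.v1.2.2⟩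
      have m8 : x.p0 / x.v2 ∈ range (4 * U / V + 1) := by
        rw [mem_range, Nat.lt_succ_iff]
        have h17 : x.p0 / x.v2 = 4 * x.p0 / (4 * x.v2) := (Nat.mul_div_mul_left _ _ (by norm_num)).symm
        rw [h17]
        exact Nat.div_le_div (Nat.mul_le_mul_left 4 hc.p0.2.2) hc.v2.2.1.le hV.ne'
      exact mem_coe.2 (mem_product.2 ⟨m1, mem_product.2 ⟨m2, mem_product.2 ⟨m3, mem_product.2 ⟨m4,
        mem_product.2 ⟨m5, mem_product.2 ⟨m6, mem_product.2 ⟨m7, m8⟩⟩⟩⟩⟩⟩⟩)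
    · intro x hx y hy hxy
      have hx' : x ∈ T := hx
      have hy' : y ∈ T := hy
      obtain ⟨a1, b1⟩ := Prod.mk.inj hxy
      obtain ⟨a2, b2⟩ := Prod.mk.inj b1
      obtain ⟨a3, b3⟩ := Prod.mk.inj b2
      obtain ⟨a4, b4⟩ := Prod.mk.inj b3
      obtain ⟨a5, b5⟩ := Prod.mk.inj b4
      obtain ⟨a6, b6⟩ := Prod.mk.inj b5
      obtain ⟨a7, a8⟩ := Prod.mk.inj b6
      obtain ⟨e2, h1, h2, h3, h4, h5, h6, h7, h8, h9, h10, h12, h13, h14, h16⟩ := key x hx'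
      obtain ⟨e2', g1, g2, g3, g4, g5, g6, g7, g8, g9, g10, g12, g13, g14, g16⟩ := key y hy'
      rw [← a1, ← a2, ← a4, ← a5, ← a6, ← a7] at g5
      rw [← a1, ← a2, ← a3, ← a4, ← a7] at g6
      have hv2 : x.v2 = y.v2 := by
        have h17 : K1 x * (x.v2 : ℤ) = K1 x * (y.v2 : ℤ) := by linear_combination h5 - g5
        exact_mod_cast mul_left_cancel₀ h7 h17
      rw [← hv2] at g6
      have hc := hT x hx'
      have hlt : |TT x| < (x.v2 : ℤ) := by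
        have h17 : (8 * U * V : ℤ) < Rm * Wm := by exact_mod_cast hN.big
        have h18 : (V : ℤ) < 4 * x.v2 := by exact_mod_cast hc.v2.2.1
        have h19 : 0 < |TT x| := abs_pos.2 h10
        have hU' : (0 : ℤ) < U := by exact_mod_cast hU
        have hV' : (0 : ℤ) < V := by exact_mod_cast hV
        have h20 : |TT x| * (8 * U * V) < 2 * U * V * V :=
          lt_of_lt_of_le (mul_lt_mul_of_pos_left h17 h19) h16
        have h21 : (2 * U * V : ℤ) * (4 * |TT x|) < (2 * U * V) * V := by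
          calc (2 * U * V : ℤ) * (4 * |TT x|) = |TT x| * (8 * U * V) := by ring
            _ < 2 * U * V * V := h20
            _ = (2 * U * V) * V := by ring
        have h22 : 4 * |TT x| < (V : ℤ) := lt_of_mul_lt_mul_left h21 (by positivity)
        omega
      have hp0 : x.p0 = y.p0 := by
        have hpr : Prime (x.v2 : ℤ) := Nat.prime_iff_prime_int.1 hc.v2.1
        have h17 : (x.v2 : ℤ) ∣ ((y.p0 : ℤ) - x.p0) * TT x := by
          refine ⟨K1 x * (e2 - e2'), ?_⟩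
          linear_combination g6 - h6
        have h18 : (x.v2 : ℤ) ∣ (y.p0 : ℤ) - x.p0 := by
          rcases hpr.dvd_or_dvd h17 with h | h
          · exact h
          · exfalso
            have := Int.le_of_dvd (abs_pos.2 h10) ((dvd_abs _ _).2 h)
            omega
        have h19 : x.p0 ≡ y.p0 [MOD x.v2] := (Nat.modEq_iff_dvd.2 h18)
        have h20 : x.p0 / x.v2 = y.p0 / x.v2 := by
          have := a8
          rw [← hv2] at this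
          exact this
        rw [← Nat.div_add_mod x.p0 x.v2, ← Nat.div_add_mod y.p0 x.v2, h20, h19]
      have hp1 : x.p1 = y.p1 := by
        have : (x.p1 : ℤ) = y.p1 := by rw [h1, g1, hp0, a5, a3]
        exact_mod_cast this
      have he2 : e2 = e2' := by
        have hv : (x.v2 : ℤ) ≠ 0 := by exact_mod_cast hc.v2.1.ne_zero
        rw [← hp0] at g6
        have h17 : (K1 x * x.v2) * e2 = (K1 x * x.v2) * e2' := by linear_combination h6 - g6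
        exact mul_left_cancel₀ (mul_ne_zero h7 hv) h17
      have hp2 : x.p2 = y.p2 := by
        have : (x.p2 : ℤ) = y.p2 := by rw [h2, g2, hp0, a5, he2]
        exact_mod_cast this
      have hr : x.r = y.r := by
        rw [← a1, ← hp1, ← hp0, ← a6, ← a7] at g3
        have h17 : K1 x * (x.r : ℤ) = K1 x * y.r := by linear_combination g3 - h3
        exact_mod_cast mul_left_cancel₀ h7 h17
      exact Tup.ext hr a5 hp0 hp1 hp2 a6 a7 hv2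
  have hB : (B.card : ℝ) ≤ (2 * ((U * V : ℕ) / Rm)) * ((2 * ((U * V : ℕ) / Rm)) * ((2 * ((U : ℝ) / Wm)) *
      ((2 * ((2 * U * V * V : ℕ) / (Rm * Wm : ℕ))) * (WM * (V * (V * (5 * U / V))))))) := by
    have c5 : ((range (4 * U / V + 1)).card : ℝ) ≤ 5 * U / V := by
      rw [card_range, Nat.cast_add, Nat.cast_one]
      have h1 : ((4 * U / V : ℕ) : ℝ) ≤ (4 * U : ℕ) / V := Nat.cast_div_le
      have hV' : (0 : ℝ) < V := by exact_mod_cast hV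
      have h2 : (1 : ℝ) ≤ U / V := by
        rw [le_div_iff₀ hV', one_mul]
        have := hN.UV
        have : V ≤ U := by omega
        exact_mod_cast this
      calc ((4 * U / V : ℕ) : ℝ) + 1 ≤ (4 * U : ℕ) / V + U / V := add_le_add h1 h2
        _ = 5 * U / V := by push_cast; ring
    have c4 : ((Icc 1 V).card : ℝ) ≤ V := by rw [Nat.card_Icc, Nat.add_sub_cancel]
    have c3 : ((Icc 1 WM).card : ℝ) ≤ WM := by rw [Nat.card_Icc, Nat.add_sub_cancel]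
    show (((((Icc (-((U * V / Rm : ℕ) : ℤ)) ((U * V / Rm : ℕ) : ℤ)).erase 0) ×ˢ
      ((Icc (-((U * V / Rm : ℕ) : ℤ)) ((U * V / Rm : ℕ) : ℤ)).erase 0) ×ˢ
      ((Icc (-((U / Wm : ℕ) : ℤ)) ((U / Wm : ℕ) : ℤ)).erase 0) ×ˢ
      ((Icc (-((2 * U * V * V / (Rm * Wm) : ℕ) : ℤ)) ((2 * U * V * V / (Rm * Wm) : ℕ) : ℤ)).erase 0) ×ˢ
      (Icc 1 WM) ×ˢ (Icc 1 V) ×ˢ (Icc 1 V) ×ˢ (range (4 * U / V + 1))).card : ℕ) : ℝ) ≤ _
    rw [card_product, card_product, card_product, card_product, card_product, card_product,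
      card_product, Nat.cast_mul, Nat.cast_mul, Nat.cast_mul, Nat.cast_mul, Nat.cast_mul,
      Nat.cast_mul, Nat.cast_mul]
    gcongr
    · exact CFB_card Rm (U * V)
    · exact CFB_card Rm (U * V)
    · exact CFB_card Wm U
    · exact CFB_card (Rm * Wm) (2 * U * V * V)
  have hR' : (0 : ℝ) < Rm := by exact_mod_cast hR
  have hW' : (0 : ℝ) < Wm := by exact_mod_cast hW
  have hV' : (0 : ℝ) < V := by exact_mod_cast hV
  calc (T.card : ℝ) ≤ B.card := by exact_mod_cast hcard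
    _ ≤ _ := hB
    _ = 160 * U ^ 5 * V ^ 5 * WM / (Rm ^ 3 * Wm ^ 2) := by
      push_cast
      field_simp
      ring
-- END CFB

-- BEGIN CFC
private def CFC_k1 (x : Tup) : ℤ := ((x.p1 : ℤ) * x.v1 - x.p0 * x.v0) / x.r

private def CFC_k2 (x : Tup) : ℤ := ((x.p2 : ℤ) * x.v2 - x.p0 * x.v0) / x.r

private def CFC_e1 (x : Tup) : ℤ := ((x.p1 : ℤ) - x.p0) / x.w

private theorem CFC_facts {U V Rm Wm WM : ℕ} (hN : Num U V Rm Wm) {x : Tup} (hx : Cfg U V Rm Wm WM x)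
    (ht : ((x.p1 : ℤ) * x.v1 - x.p0 * x.v0) / x.r * ((x.v2 : ℤ) - x.v0) =
      ((x.p2 : ℤ) * x.v2 - x.p0 * x.v0) / x.r * ((x.v1 : ℤ) - x.v0)) :
    ∃ e2 : ℤ, (x.p1 : ℤ) = x.p0 + x.w * CFC_e1 x ∧ (x.p2 : ℤ) = x.p0 + x.w * e2 ∧
      (x.p1 : ℤ) * x.v1 = x.p0 * x.v0 + x.r * CFC_k1 x ∧
      CFC_k1 x * ((x.v2 : ℤ) - x.v0) = CFC_k2 x * ((x.v1 : ℤ) - x.v0) ∧
      CFC_k1 x * e2 * x.v2 = CFC_k2 x * CFC_e1 x * x.v1 ∧ CFC_k1 x ≠ 0 ∧ CFC_k2 x ≠ 0 ∧ CFC_e1 x ≠ 0 ∧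
      |CFC_k1 x| * Rm ≤ U * V ∧ |CFC_k2 x| * Rm ≤ U * V ∧ |CFC_e1 x| * Wm ≤ U ∧
      ((x.v2 : ℤ) ∣ CFC_k2 x ∨ (x.v2 : ℤ) ∣ CFC_e1 x) := by
  obtain ⟨k1, k2, e1, e2, t, h1, h2, h3, h4, h5, h6, h7, h8, h9, h10, h11, h12, h13, h14, h15, h16⟩ := data hN hx
  have hr : (x.r : ℤ) ≠ 0 := by
    have := hN.RV; have := hx.rm
    exact_mod_cast (by omega : x.r ≠ 0)
  have hw : (x.w : ℤ) ≠ 0 := by
    have := hN.W0; have := hx.wm
    exact_mod_cast (by omega : x.w ≠ 0)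
  have hk1 : CFC_k1 x = k1 := by
    unfold CFC_k1
    rw [h3, add_sub_cancel_left]
    exact Int.mul_ediv_cancel_left _ hr
  have hk2 : CFC_k2 x = k2 := by
    unfold CFC_k2
    rw [h4, add_sub_cancel_left]
    exact Int.mul_ediv_cancel_left _ hr
  have he1 : CFC_e1 x = e1 := by
    unfold CFC_e1
    rw [h1, add_sub_cancel_left]
    exact Int.mul_ediv_cancel_left _ hw
  have ht' : CFC_k1 x * ((x.v2 : ℤ) - x.v0) = CFC_k2 x * ((x.v1 : ℤ) - x.v0) := ht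
  have ht0 : t = 0 := by
    rw [hk1, hk2] at ht'
    rw [ht', sub_self] at h5
    rcases mul_eq_zero.1 h5.symm with h | h
    · exact absurd h hw
    · exact h
  have h6' : k1 * e2 * x.v2 = k2 * e1 * x.v1 := by
    rw [ht0, mul_zero, neg_zero] at h6
    linarith
  have hp2 : Prime (x.v2 : ℤ) := Nat.prime_iff_prime_int.1 hx.v2.1
  have hdv : (x.v2 : ℤ) ∣ k2 * e1 := by
    have h17 : (x.v2 : ℤ) ∣ k2 * e1 * x.v1 := ⟨k1 * e2, by rw [← h6']; ring⟩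
    rcases hp2.dvd_or_dvd h17 with h | h
    · exact h
    · exact absurd ((Nat.prime_dvd_prime_iff_eq hx.v2.1 hx.v1.1).1 (Int.natCast_dvd_natCast.1 h)).symm h11
  refine ⟨e2, ?_, h2, ?_, ht', ?_, ?_, ?_, ?_, ?_, ?_, ?_, ?_⟩
  · rw [he1]; exact h1
  · rw [hk1]; exact h3
  · rw [hk1, hk2, he1]; exact h6'
  · rw [hk1]; exact h7
  · rw [hk2]; exact h8
  · rw [he1]; exact h9
  · rw [hk1]; exact h12
  · rw [hk2]; exact h13
  · rw [he1]; exact h14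
  · rw [hk2, he1]; exact hp2.dvd_or_dvd hdv

private theorem CFC_inj {U V Rm Wm WM : ℕ} (hN : Num U V Rm Wm) {x y : Tup} (hx : Cfg U V Rm Wm WM x) (hy : Cfg U V Rm Wm WM y)
    (htx : ((x.p1 : ℤ) * x.v1 - x.p0 * x.v0) / x.r * ((x.v2 : ℤ) - x.v0) =
      ((x.p2 : ℤ) * x.v2 - x.p0 * x.v0) / x.r * ((x.v1 : ℤ) - x.v0))
    (hty : ((y.p1 : ℤ) * y.v1 - y.p0 * y.v0) / y.r * ((y.v2 : ℤ) - y.v0) =
      ((y.p2 : ℤ) * y.v2 - y.p0 * y.v0) / y.r * ((y.v1 : ℤ) - y.v0))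
    (h1 : x.v2 = y.v2) (h2 : CFC_k2 x = CFC_k2 y) (h3 : CFC_e1 x = CFC_e1 y) (h4 : CFC_k1 x = CFC_k1 y)
    (h5 : x.w = y.w) (h6 : x.v0 = y.v0) (h7 : x.p0 = y.p0) : x = y := by
  obtain ⟨f, a1, a2, a3, a4, a5, a6, a7, a8, -⟩ := CFC_facts hN hx htx
  obtain ⟨g, b1, b2, b3, b4, b5, b6, b7, b8, -⟩ := CFC_facts hN hy hty
  have hv2 : (y.v2 : ℤ) ≠ 0 := by exact_mod_cast hy.v2.1.ne_zero
  have hv1 : x.v1 = y.v1 := by
    rw [h4, h1, h6, h2] at a4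
    have h8 : CFC_k2 y * ((x.v1 : ℤ) - y.v0) = CFC_k2 y * ((y.v1 : ℤ) - y.v0) := a4.symm.trans b4
    have h9 := mul_left_cancel₀ b7 h8
    have h10 : (x.v1 : ℤ) = y.v1 := by linarith
    exact_mod_cast h10
  have hfg : f = g := by
    rw [h4, h1, h2, h3, hv1] at a5
    have h8 : CFC_k1 y * f * y.v2 = CFC_k1 y * g * y.v2 := a5.trans b5.symm
    exact mul_left_cancel₀ b6 (mul_right_cancel₀ hv2 h8)
  have hp1 : x.p1 = y.p1 := by
    rw [h7, h5, h3] at a1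
    exact_mod_cast a1.trans b1.symm
  have hp2 : x.p2 = y.p2 := by
    rw [h7, h5, hfg] at a2
    exact_mod_cast a2.trans b2.symm
  have hr : x.r = y.r := by
    rw [hp1, hv1, h7, h6, h4] at a3
    have h8 : (x.r : ℤ) * CFC_k1 y = y.r * CFC_k1 y := by linarith
    exact_mod_cast mul_right_cancel₀ b6 h8
  exact Tup.ext hr h5 h7 hp1 hp2 h6 hv1 h1

private noncomputable def CFC_nz (a : ℕ) : Finset ℤ := (Finset.Icc (-(a : ℤ)) a).erase 0

private theorem CFC_card (a : ℕ) : (CFC_nz a).card = 2 * a := by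
  unfold CFC_nz
  rw [Finset.card_erase_of_mem (by simp), Int.card_Icc]
  omega

private theorem CFC_mem {m : ℤ} {a b : ℕ} (hb : 0 < b) (hm : m ≠ 0) (h : |m| * b ≤ a) : m ∈ CFC_nz (a / b) := by
  unfold CFC_nz
  have h1 : m.natAbs ≤ a / b := by
    rw [Nat.le_div_iff_mul_le hb]
    have h2 : ((m.natAbs * b : ℕ) : ℤ) ≤ (a : ℕ) := by
      push_cast
      exact h
    exact_mod_cast h2
  refine Finset.mem_erase.2 ⟨hm, Finset.mem_Icc.2 ?_⟩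
  rw [← abs_le, ← Int.natCast_natAbs]
  exact_mod_cast h1

/-- The number of triple coincidences with `t = 0`: then `k1 (v2 - v0) = k2 (v1 - v0)`,
`k1 e2 v2 = k2 e1 v1`, so `v2 | k2 e1` (as `v2 ≠ v1`).  If `k2 = v2 m`, the tuple is determined by
`(v2, m, e1, k1, w, v0, p0)`, `|m| <= 4K/V`: `v1` from the first, `e2` from the second equation,
then `p1`, `p2`, `r`; if `e1 = v2 m`, by `(v2, m, k1, k2, w, v0, p0)`, `|m| <= 4E/V`.
Each of the two boxes has at most `32 K^2 E WM V U` elements. -/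
theorem countB {U V Rm Wm WM : ℕ} (hN : Num U V Rm Wm) {T : Finset Tup}
    (hT : ∀ x ∈ T, Cfg U V Rm Wm WM x)
    (ht : ∀ x ∈ T, ((x.p1 : ℤ) * x.v1 - x.p0 * x.v0) / x.r * ((x.v2 : ℤ) - x.v0) =
      ((x.p2 : ℤ) * x.v2 - x.p0 * x.v0) / x.r * ((x.v1 : ℤ) - x.v0)) :
    (T.card : ℝ) ≤ 64 * U ^ 4 * V ^ 3 * WM / (Rm ^ 2 * Wm) := by
  classical
  have hRm : 0 < Rm := lt_of_le_of_lt (Nat.zero_le _) hN.RV
  have hWm : 0 < Wm := hN.W0
  have hV : 0 < V := hN.V1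
  -- the bound for `m`
  have hm : ∀ {x : Tup}, x ∈ T → ∀ {n m : ℤ} {a b : ℕ}, n = x.v2 * m → |n| * b ≤ a → |m| * ((V * b : ℕ) : ℤ) ≤ (4 * a : ℕ) := by
    intro x hx n m a b h1 h2
    have h3 : (V : ℤ) ≤ 4 * x.v2 := by exact_mod_cast (hT x hx).v2.2.1.le
    rw [h1, abs_mul, Nat.abs_cast] at h2
    have h4 : 0 ≤ |m| * (b : ℤ) := by positivity
    push_cast
    nlinarith [mul_le_mul_of_nonneg_right h3 h4]
  set T1 := T.filter (fun x => (x.v2 : ℤ) ∣ CFC_k2 x) with hT1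
  set T2 := T.filter (fun x => (x.v2 : ℤ) ∣ CFC_e1 x) with hT2
  have hsub : T ⊆ T1 ∪ T2 := by
    intro x hx
    obtain ⟨f, -, -, -, -, -, -, -, -, -, -, -, a⟩ := CFC_facts hN (hT x hx) (ht x hx)
    rcases a with a | a
    · exact Finset.mem_union_left _ (Finset.mem_filter.2 ⟨hx, a⟩)
    · exact Finset.mem_union_right _ (Finset.mem_filter.2 ⟨hx, a⟩)
  have hc1 : T1.card ≤ (Finset.Icc 1 V ×ˢ CFC_nz (4 * (U * V) / (V * Rm)) ×ˢ CFC_nz (U / Wm) ×ˢ CFC_nz (U * V / Rm) ×ˢ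
      Finset.Icc 1 WM ×ˢ Finset.Icc 1 V ×ˢ Finset.Icc 1 U).card := by
    refine Finset.card_le_card_of_injOn (fun x => (x.v2, CFC_k2 x / x.v2, CFC_e1 x, CFC_k1 x, x.w, x.v0, x.p0)) ?_ ?_
    · intro x hx
      have hx' := Finset.mem_filter.1 hx
      have hc := hT x hx'.1
      obtain ⟨f, a1, a2, a3, a4, a5, a6, a7, a8, a9, a10, a11, -⟩ := CFC_facts hN hc (ht x hx'.1)
      have hd : CFC_k2 x = x.v2 * (CFC_k2 x / x.v2) := (Int.mul_ediv_cancel' hx'.2).symm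
      have hn : CFC_k2 x / x.v2 ≠ 0 := by
        intro h0
        rw [h0, mul_zero] at hd
        exact a7 hd
      have hw := hc.wm
      simp only [Finset.coe_product, Set.mem_prod, Finset.mem_coe, Finset.mem_Icc]
      refine ⟨⟨hc.v2.1.one_le, hc.v2.2.2⟩, CFC_mem (Nat.mul_pos hV hRm) hn (hm hx'.1 hd (by exact_mod_cast a10)), CFC_mem hWm a8 a11,
        CFC_mem hRm a6 (by exact_mod_cast a9), ⟨by omega, hc.wM⟩, ⟨hc.v0.1.one_le, hc.v0.2.2⟩, ⟨hc.p0.1.one_le, hc.p0.2.2⟩⟩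
    · intro x hx y hy hxy
      have hx' := Finset.mem_filter.1 hx
      have hy' := Finset.mem_filter.1 hy
      simp only [Prod.mk.injEq] at hxy
      obtain ⟨c1, c2, c3, c4, c5, c6, c7⟩ := hxy
      refine CFC_inj hN (hT x hx'.1) (hT y hy'.1) (ht x hx'.1) (ht y hy'.1) c1 ?_ c3 c4 c5 c6 c7
      rw [← Int.mul_ediv_cancel' hx'.2, ← Int.mul_ediv_cancel' hy'.2, c2, c1]
  have hc2 : T2.card ≤ (Finset.Icc 1 V ×ˢ CFC_nz (4 * U / (V * Wm)) ×ˢ CFC_nz (U * V / Rm) ×ˢ CFC_nz (U * V / Rm) ×ˢ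
      Finset.Icc 1 WM ×ˢ Finset.Icc 1 V ×ˢ Finset.Icc 1 U).card := by
    refine Finset.card_le_card_of_injOn (fun x => (x.v2, CFC_e1 x / x.v2, CFC_k1 x, CFC_k2 x, x.w, x.v0, x.p0)) ?_ ?_
    · intro x hx
      have hx' := Finset.mem_filter.1 hx
      have hc := hT x hx'.1
      obtain ⟨f, a1, a2, a3, a4, a5, a6, a7, a8, a9, a10, a11, -⟩ := CFC_facts hN hc (ht x hx'.1)
      have hd : CFC_e1 x = x.v2 * (CFC_e1 x / x.v2) := (Int.mul_ediv_cancel' hx'.2).symm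
      have hn : CFC_e1 x / x.v2 ≠ 0 := by
        intro h0
        rw [h0, mul_zero] at hd
        exact a8 hd
      have hw := hc.wm
      simp only [Finset.coe_product, Set.mem_prod, Finset.mem_coe, Finset.mem_Icc]
      refine ⟨⟨hc.v2.1.one_le, hc.v2.2.2⟩, CFC_mem (Nat.mul_pos hV hWm) hn (hm hx'.1 hd a11), CFC_mem hRm a6 (by exact_mod_cast a9),
        CFC_mem hRm a7 (by exact_mod_cast a10), ⟨by omega, hc.wM⟩, ⟨hc.v0.1.one_le, hc.v0.2.2⟩, ⟨hc.p0.1.one_le, hc.p0.2.2⟩⟩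
    · intro x hx y hy hxy
      have hx' := Finset.mem_filter.1 hx
      have hy' := Finset.mem_filter.1 hy
      simp only [Prod.mk.injEq] at hxy
      obtain ⟨c1, c2, c3, c4, c5, c6, c7⟩ := hxy
      refine CFC_inj hN (hT x hx'.1) (hT y hy'.1) (ht x hx'.1) (ht y hy'.1) c1 c4 ?_ c3 c5 c6 c7
      rw [← Int.mul_ediv_cancel' hx'.2, ← Int.mul_ediv_cancel' hy'.2, c2, c1]
  have hcard : T.card ≤ T1.card + T2.card := (Finset.card_le_card hsub).trans (Finset.card_union_le _ _)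
  simp only [Finset.card_product, CFC_card, Nat.card_Icc, Nat.add_sub_cancel] at hc1 hc2
  have hRm' : (0 : ℝ) < Rm := by exact_mod_cast hRm
  have hWm' : (0 : ℝ) < Wm := by exact_mod_cast hWm
  have hV' : (0 : ℝ) < V := by exact_mod_cast hV
  have q1 : ((4 * (U * V) / (V * Rm) : ℕ) : ℝ) ≤ 4 * U / Rm := by
    refine (Nat.cast_div_le).trans ?_
    push_cast
    rw [div_le_div_iff₀ (by positivity) (by positivity)]
    nlinarith
  have q2 : ((U / Wm : ℕ) : ℝ) ≤ U / Wm := Nat.cast_div_le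
  have q3 : ((U * V / Rm : ℕ) : ℝ) ≤ U * V / Rm := by
    refine (Nat.cast_div_le).trans ?_
    push_cast
    exact le_refl _
  have q4 : ((4 * U / (V * Wm) : ℕ) : ℝ) ≤ 4 * U / (V * Wm) := by
    refine (Nat.cast_div_le).trans ?_
    push_cast
    exact le_refl _
  have r1 : (T1.card : ℝ) ≤ 32 * U ^ 4 * V ^ 3 * WM / (Rm ^ 2 * Wm) := by
    have h1 : (T1.card : ℝ) ≤ V * (2 * (4 * U / Rm) * (2 * (U / Wm) * (2 * (U * V / Rm) * (WM * (V * U))))) := by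
      refine le_trans ((Nat.cast_le (α := ℝ)).2 hc1) ?_
      push_cast
      gcongr
    refine h1.trans (le_of_eq ?_)
    field_simp
    ring
  have r2 : (T2.card : ℝ) ≤ 32 * U ^ 4 * V ^ 3 * WM / (Rm ^ 2 * Wm) := by
    have h1 : (T2.card : ℝ) ≤ V * (2 * (4 * U / (V * Wm)) * (2 * (U * V / Rm) * (2 * (U * V / Rm) * (WM * (V * U))))) := by
      refine le_trans ((Nat.cast_le (α := ℝ)).2 hc2) ?_
      push_cast
      gcongr
    refine h1.trans (le_of_eq ?_)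
    field_simp
    ring
  have h3 : (T.card : ℝ) ≤ T1.card + T2.card := by exact_mod_cast hcard
  have h4 : 64 * (U : ℝ) ^ 4 * V ^ 3 * WM / (Rm ^ 2 * Wm) = 32 * U ^ 4 * V ^ 3 * WM / (Rm ^ 2 * Wm) + 32 * U ^ 4 * V ^ 3 * WM / (Rm ^ 2 * Wm) := by
    ring
  rw [h4]
  linarith
-- END CFC

theorem count {U V Rm Wm WM : ℕ} (hN : Num U V Rm Wm) {T : Finset Tup}
    (hT : ∀ x ∈ T, Cfg U V Rm Wm WM x) :
    T = ∅ ∨ (Rm ≤ U * V ∧ Wm ≤ U ∧ (T.card : ℝ) ≤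
      160 * U ^ 5 * V ^ 5 * WM / (Rm ^ 3 * Wm ^ 2) + 64 * U ^ 4 * V ^ 3 * WM / (Rm ^ 2 * Wm)) := by
  classical
  rcases T.eq_empty_or_nonempty with h | ⟨x, hx⟩
  · exact Or.inl h
  · right
    obtain ⟨k1, k2, e1, e2, t, h1, h2, h3, h4, h5, h6, h7, h8, h9, h10, h11, h12, h13, h14, h15,
      h16⟩ := data hN (hT x hx)
    refine ⟨?_, ?_, ?_⟩
    · have : (1 : ℤ) ≤ |k1| := Int.one_le_abs h7
      have : (Rm : ℤ) ≤ U * V := by nlinarith [h12]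
      exact_mod_cast this
    · have : (1 : ℤ) ≤ |e1| := Int.one_le_abs h9
      have : (Wm : ℤ) ≤ U := by nlinarith [h14]
      exact_mod_cast this
    · have hA := countA hN (T := T.filter (fun x : Tup =>
        ((x.p1 : ℤ) * x.v1 - x.p0 * x.v0) / x.r * ((x.v2 : ℤ) - x.v0) ≠
        ((x.p2 : ℤ) * x.v2 - x.p0 * x.v0) / x.r * ((x.v1 : ℤ) - x.v0)))
        (fun x hx => hT x (Finset.mem_filter.1 hx).1) (fun x hx => (Finset.mem_filter.1 hx).2)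
      have hB := countB hN (T := T.filter (fun x : Tup => ¬
        (((x.p1 : ℤ) * x.v1 - x.p0 * x.v0) / x.r * ((x.v2 : ℤ) - x.v0) ≠
        ((x.p2 : ℤ) * x.v2 - x.p0 * x.v0) / x.r * ((x.v1 : ℤ) - x.v0))))
        (fun x hx => hT x (Finset.mem_filter.1 hx).1)
        (fun x hx => not_not.1 (Finset.mem_filter.1 hx).2)
      have hc := Finset.card_filter_add_card_filter_not (s := T) (fun x : Tup =>
        ((x.p1 : ℤ) * x.v1 - x.p0 * x.v0) / x.r * ((x.v2 : ℤ) - x.v0) ≠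
        ((x.p2 : ℤ) * x.v2 - x.p0 * x.v0) / x.r * ((x.v1 : ℤ) - x.v0))
      rw [← hc, Nat.cast_add]
      exact add_le_add hA hB

end Pool.Agent.TwR
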