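import Mathlib

/-!
# Two representations: definitions

Ruzsa's and Cilleruelo's digit construction.  `s 0, s 1, ...` are primes (the moduli), a prime `p`
of class `k` (that is, in `(2^(u k - 2), 2^(u k)]`) is coded by the number
`code s k p = sum over j < k of lg (s j) p * Bs s j`, where `lg q p` is a discrete logarithm of
`p` modulo `q` in `[q, 2q - 2]` and `Bs s j = (4 s_0) ... (4 s_(j-1))`.
-/

namespace Pool.Agent.TwR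

open Finset

/-- the primes in `(2^(m-2), 2^m]` -/
def Pr (m : ℕ) : Finset ℕ := (Ioc (2 ^ (m - 2)) (2 ^ m)).filter Nat.Prime

open Classical in
/-- a primitive root modulo `q`, as an element of `ZMod q` -/
noncomputable def gen (q : ℕ) : ZMod q :=
  if h : ∃ g : (ZMod q)ˣ, ∀ y : (ZMod q)ˣ, y ∈ Subgroup.zpowers g then
    ((h.choose : (ZMod q)ˣ) : ZMod q) else 1

open Classical in
/-- the discrete logarithm of `a` modulo `q` in the interval `[q, 2q-2]` -/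
noncomputable def lg (q a : ℕ) : ℕ :=
  if h : ∃ x, q ≤ x ∧ x ≤ 2 * q - 2 ∧ gen q ^ x = (a : ZMod q) then h.choose else q

/-- the place values -/
def Bs (s : ℕ → ℕ) (j : ℕ) : ℕ := ∏ i ∈ range j, 4 * s i

/-- the code of `p` with `k` digits -/
noncomputable def code (s : ℕ → ℕ) (k p : ℕ) : ℕ := ∑ j ∈ range k, lg (s j) p * Bs s j

/-- eight numbers: two moduli `r`, `w` and three pairs `(p_i, v_i)` -/
@[ext] structure Tup where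
  r : ℕ
  w : ℕ
  p0 : ℕ
  p1 : ℕ
  p2 : ℕ
  v0 : ℕ
  v1 : ℕ
  v2 : ℕ
deriving DecidableEq

/-- a triple coincidence -/
def Bad3 (x : Tup) : Prop :=
  x.p1 ≡ x.p0 [MOD x.w] ∧ x.p2 ≡ x.p0 [MOD x.w] ∧
  x.p1 * x.v1 ≡ x.p0 * x.v0 [MOD x.r] ∧ x.p2 * x.v2 ≡ x.p0 * x.v0 [MOD x.r] ∧
  ¬ (x.p1 = x.p0 ∧ x.v1 = x.v0) ∧ ¬ (x.p2 = x.p0 ∧ x.v2 = x.v0) ∧ ¬ (x.p2 = x.p1 ∧ x.v2 = x.v1)

/-- `x` is a triple coincidence of primes `p_i` in `(U/4, U]`, `v_i` in `(V/4, V]` with moduli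
`r >= Rm`, `Wm <= w <= WM` -/
structure Cfg (U V Rm Wm WM : ℕ) (x : Tup) : Prop where
  bad : Bad3 x
  p0 : x.p0.Prime ∧ U < 4 * x.p0 ∧ x.p0 ≤ U
  p1 : x.p1.Prime ∧ U < 4 * x.p1 ∧ x.p1 ≤ U
  p2 : x.p2.Prime ∧ U < 4 * x.p2 ∧ x.p2 ≤ U
  v0 : x.v0.Prime ∧ V < 4 * x.v0 ∧ x.v0 ≤ V
  v1 : x.v1.Prime ∧ V < 4 * x.v1 ∧ x.v1 ≤ V
  v2 : x.v2.Prime ∧ V < 4 * x.v2 ∧ x.v2 ≤ V
  rm : Rm ≤ x.r
  wm : Wm ≤ x.w
  wM : x.w ≤ WM
  cp0 : x.p0.Coprime x.r ∧ x.p0.Coprime x.w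
  cp1 : x.p1.Coprime x.r ∧ x.p1.Coprime x.w
  cp2 : x.p2.Coprime x.r ∧ x.p2.Coprime x.w
  cv0 : x.v0.Coprime x.r
  cv1 : x.v1.Coprime x.r
  cv2 : x.v2.Coprime x.r
  rw : x.r.Coprime x.w

/-- the numerical hypotheses of the counting -/
structure Num (U V Rm Wm : ℕ) : Prop where
  V1 : 1 ≤ V
  UV : 4 * V ≤ U
  RV : V < Rm
  W0 : 0 < Wm
  big : 8 * U * V < Rm * Wm

open Classical in
/-- all triple coincidences between the classes `k` and `l < k` for the moduli `s` -/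
noncomputable def tupS (P : ℕ → Finset ℕ) (s : ℕ → ℕ) (k l : ℕ) : Finset Tup :=
  ((P k ×ˢ P k ×ˢ P k ×ˢ P l ×ˢ P l ×ˢ P l).image
    (fun y => (⟨∏ j ∈ range l, s j, ∏ j ∈ Ico l k, s j,
      y.1, y.2.1, y.2.2.1, y.2.2.2.1, y.2.2.2.2.1, y.2.2.2.2.2⟩ : Tup))).filter
    (fun x => Bad3 x ∧ (∀ j < k, ¬ s j ∣ x.p0 ∧ ¬ s j ∣ x.p1 ∧ ¬ s j ∣ x.p2) ∧
      (∀ j < l, ¬ s j ∣ x.v0 ∧ ¬ s j ∣ x.v1 ∧ ¬ s j ∣ x.v2))

open Classical in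
/-- the finite sequences with `s j` in `Q j` for `j < k` (and `0` from `k` on) -/
noncomputable def Sq (Q : ℕ → Finset ℕ) : ℕ → Finset (ℕ → ℕ)
  | 0 => {fun _ => 0}
  | (k + 1) => (Sq Q k ×ˢ Q k).image (fun x => Function.update x.1 k x.2)

/-- partial sums of the exponents -/
def sg (m : ℕ → ℕ) (k : ℕ) : ℕ := ∑ j ∈ range k, m j

open Classical in
/-- the primes of class `k` that are removed -/
noncomputable def Bad (P : ℕ → Finset ℕ) (k0 : ℕ) (s : ℕ → ℕ) (k : ℕ) : Finset ℕ :=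
  (P k).filter (fun p => (∃ j < k, s j ∣ p) ∨ ∃ l, k0 ≤ l ∧ l < k ∧ ∃ x ∈ tupS P s k l, x.p0 = p)

/-- the set -/
def Aset (P : ℕ → Finset ℕ) (k0 : ℕ) (s : ℕ → ℕ) : Set ℕ :=
  {n | ∃ k, k0 ≤ k ∧ ∃ p ∈ P k, p ∉ Bad P k0 s k ∧ n = code s k p}

end Pool.Agent.TwR
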