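import Mathlib

/-! The exponent inequalities (`x = s_k`, `y = s_l`, `a = u_k`, `b = u_l`). -/

namespace Pool.Agent.TwR

/-- Case A: `K >= 1` forces `y <= (β x + 2k) / (1 - β)`; the condition is `β^2 + 4 β - 2 < 0`. -/
theorem expA {β : ℝ} (h1 : 2 / 5 < β) (h2 : β < 1 / 2) (h3 : β ^ 2 + 4 * β - 2 < 0) :
    ∃ δ > 0, ∀ x y a b k : ℝ, 0 ≤ x → 0 ≤ y → 0 ≤ k → a ≤ β * x → b ≤ β * y →
      y - 2 * k ≤ a + b → 4 * a + 5 * b - 2 * x - 2 * y + 6 * k ≤ - δ * x + 10 * k := by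
  refine ⟨-(β ^ 2 + 4 * β - 2) / (1 - β), by
    apply div_pos <;> linarith, ?_⟩
  intro x y a b k hx hy hk ha hb hab
  have h4 : (0 : ℝ) < 1 - β := by linarith
  have h5 : y ≤ (β * x + 2 * k) / (1 - β) := by
    rw [le_div_iff₀ h4]
    nlinarith
  have h6 : (5 * β - 2) * y ≤ (5 * β - 2) * ((β * x + 2 * k) / (1 - β)) :=
    mul_le_mul_of_nonneg_left h5 (by linarith)
  have h7 : (5 * β - 2) * ((β * x + 2 * k) / (1 - β)) =
      (5 * β - 2) * β / (1 - β) * x + (5 * β - 2) * 2 / (1 - β) * k := by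
    field_simp
  have h8 : (5 * β - 2) * 2 / (1 - β) ≤ 2 := by
    rw [div_le_iff₀ h4]
    linarith
  have h9 : (5 * β - 2) * 2 / (1 - β) * k ≤ 2 * k := mul_le_mul_of_nonneg_right h8 hk
  have h10 : (4 * β - 2) * x + (5 * β - 2) * β / (1 - β) * x =
      - (-(β ^ 2 + 4 * β - 2) / (1 - β)) * x := by
    field_simp
    ring
  nlinarith

/-- Case B: `E >= 1` forces `y >= (1 - β) x - 2k`; the condition is `8 β - 3 - 3 β^2 < 0`. -/
theorem expB {β : ℝ} (h1 : 2 / 5 < β) (h2 : β < 1 / 2) (h3 : 8 * β - 3 - 3 * β ^ 2 < 0) :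
    ∃ δ > 0, ∀ x y a b k : ℝ, 0 ≤ x → 0 ≤ y → 0 ≤ k → a ≤ β * x → b ≤ β * y →
      x - y - 2 * k ≤ a → 3 * a + 3 * b - x - 2 * y + 4 * k ≤ - δ * x + 10 * k := by
  refine ⟨-(8 * β - 3 - 3 * β ^ 2), by linarith, ?_⟩
  intro x y a b k hx hy hk ha hb hab
  have h5 : (1 - β) * x - 2 * k ≤ y := by nlinarith
  have h6 : (3 * β - 2) * y ≤ (3 * β - 2) * ((1 - β) * x - 2 * k) := by nlinarith
  nlinarith

theorem sqrt6_bounds : 2.449 < √6 ∧ √6 < 2.45 := by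
  constructor
  · rw [Real.lt_sqrt (by norm_num)]
    norm_num
  · rw [Real.sqrt_lt' (by norm_num)]
    norm_num

theorem beta_facts {β : ℝ} (h1 : 2 / 5 < β) (h2 : β < √6 - 2) :
    β < 1 / 2 ∧ β ^ 2 + 4 * β - 2 < 0 ∧ 8 * β - 3 - 3 * β ^ 2 < 0 := by
  obtain ⟨h3, h4⟩ := sqrt6_bounds
  have h5 : √6 ^ 2 = 6 := Real.sq_sqrt (by norm_num)
  refine ⟨by linarith, ?_, ?_⟩
  · nlinarith
  · nlinarith

end Pool.Agent.TwR
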