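import Pool.Agent.TwR.Bdt

/-! row REP: at most two representations -/

namespace Pool.Agent.TwR

open Finset

-- BEGIN REP
private theorem REP_notBad {P : ℕ → Finset ℕ} {s : ℕ → ℕ} {k0 k p : ℕ} (hp : p ∈ P k)
    (h : p ∉ Bad P k0 s k) : ∀ j < k, ¬ s j ∣ p := by
  classical
  intro j hj hd
  apply h
  unfold Bad
  exact Finset.mem_filter.2 ⟨hp, Or.inl ⟨j, hj, hd⟩⟩

private theorem REP_dec {P : ℕ → Finset ℕ} {s : ℕ → ℕ} {k0 a b : ℕ} (ha : a ∈ Aset P k0 s)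
    (hb : b ∈ Aset P k0 s) : ∃ k l p v, l ≤ k ∧ k0 ≤ l ∧ p ∈ P k ∧ v ∈ P l ∧
      p ∉ Bad P k0 s k ∧ v ∉ Bad P k0 s l ∧
      ((a = code s k p ∧ b = code s l v) ∨ (a = code s l v ∧ b = code s k p)) := by
  obtain ⟨k, hk, p, hp, hpB, rfl⟩ := ha
  obtain ⟨l, hl, v, hv, hvB, rfl⟩ := hb
  rcases le_total l k with h | h
  · exact ⟨k, l, p, v, h, hl, hp, hv, hpB, hvB, Or.inl ⟨rfl, rfl⟩⟩
  · exact ⟨l, k, v, p, h, hk, hv, hp, hvB, hpB, Or.inr ⟨rfl, rfl⟩⟩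

/-- Three different representations `x_i = (a_i, b_i)`: write `{a_i, b_i} = {code s k p_i,
code s l v_i}` with `l <= k` (same `k`, `l` for all three by `code_sum_modEq`, which also gives the
congruences).  The pairs `(p_i, v_i)` are different.  If `l < k`, they form an element of
`tupS .. s k l` with `p0 = p_0`, so `p_0` is in `Bad`.  If `l = k`, then `p_0 v_0 = p_1 v_1`
modulo the product of `s_j`, `j < k`, which is bigger than both (`2 u_k <= sg m k - 2 k`,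
`prod_range_bounds`), so `{p_0, v_0} = {p_1, v_1}` and `x_0 = x_1`. -/
theorem two_reps {m u s : ℕ → ℕ} {k0 : ℕ} (hs : ∀ j, s j ∈ Pr (m j))
    (hm : ∀ j, m j + 2 ≤ m (j + 1)) (hm0 : 2 ≤ m 0) (hu2 : ∀ k, k0 ≤ k → 2 ≤ u k)
    (hsq : ∀ k, k0 ≤ k → 2 * u k ≤ sg m k - 2 * k) (n : ℕ) :
    {x : ℕ × ℕ | x.1 ∈ Aset (fun k => Pr (u k)) k0 s ∧ x.2 ∈ Aset (fun k => Pr (u k)) k0 s ∧
      x.1 ≤ x.2 ∧ x.1 + x.2 = n}.ncard ≤ 2 := by
  classical
  obtain ⟨P, hPdef⟩ : ∃ P : ℕ → Finset ℕ, P = fun k => Pr (u k) := ⟨_, rfl⟩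
  rw [← hPdef]
  have hPmem : ∀ k p, p ∈ P k → p.Prime ∧ p ≤ 2 ^ u k := by
    intro k p hp
    rw [hPdef] at hp
    have h := Finset.mem_filter.1 hp
    exact ⟨h.2, (Finset.mem_Ioc.1 h.1).2⟩
  have hsp : ∀ j, (s j).Prime := fun j => (Finset.mem_filter.1 (hs j)).2
  have hmono : ∀ i j, i < j → m i + 2 ≤ m j := by
    intro i j hij
    induction j, hij using Nat.le_induction with
    | base => exact hm i
    | succ k _ ih => exact ih.trans ((Nat.le_add_right _ 2).trans (hm k))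
  have hinj : Function.Injective s := by
    have hlt : ∀ i j, i < j → s i < s j := fun i j hij => by
      induction j, hij using Nat.le_induction with
      | base => exact Pr_lt hm (Nat.lt_succ_self i) (hs i) (hs (i + 1))
      | succ k _ ih => exact ih.trans (Pr_lt hm (Nat.lt_succ_self k) (hs k) (hs (k + 1)))
    intro i j hij
    by_contra hne
    rcases lt_or_gt_of_ne hne with h | h
    · exact absurd hij (hlt i j h).ne
    · exact absurd hij (hlt j i h).ne'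
  have hm2 : ∀ j, 2 ≤ m j := by
    intro j
    rcases Nat.eq_zero_or_pos j with h | h
    · rw [h]; exact hm0
    · have := hmono 0 j h; omega
  by_contra hcon
  rw [not_le] at hcon
  have hfin : {x : ℕ × ℕ | x.1 ∈ Aset P k0 s ∧ x.2 ∈ Aset P k0 s ∧
      x.1 ≤ x.2 ∧ x.1 + x.2 = n}.Finite :=
    Set.finite_of_ncard_pos (by omega)
  obtain ⟨x0, x1, x2, hx0, hx1, hx2, h01, h02, h12⟩ := (Set.two_lt_ncard_iff hfin).1 hcon
  obtain ⟨hx0a, hx0b, hx0l, hx0n⟩ := hx0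
  obtain ⟨hx1a, hx1b, hx1l, hx1n⟩ := hx1
  obtain ⟨hx2a, hx2b, hx2l, hx2n⟩ := hx2
  obtain ⟨k, l, p0, v0, hlk, hk0, hp0, hv0, hp0B, hv0B, hc0⟩ := REP_dec hx0a hx0b
  obtain ⟨k1, l1, p1, v1, hlk1, hk01, hp1, hv1, hp1B, hv1B, hc1⟩ := REP_dec hx1a hx1b
  obtain ⟨k2, l2, p2, v2, hlk2, hk02, hp2, hv2, hp2B, hv2B, hc2⟩ := REP_dec hx2a hx2b
  have e1 : code s k1 p1 + code s l1 v1 = code s k p0 + code s l v0 := by
    rcases hc0 with ⟨h, h'⟩ | ⟨h, h'⟩ <;> rcases hc1 with ⟨h1, h1'⟩ | ⟨h1, h1'⟩ <;> omega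
  have e2 : code s k2 p2 + code s l2 v2 = code s k p0 + code s l v0 := by
    rcases hc0 with ⟨h, h'⟩ | ⟨h, h'⟩ <;> rcases hc2 with ⟨h1, h1'⟩ | ⟨h1, h1'⟩ <;> omega
  obtain ⟨rfl, rfl, f1, g1⟩ := code_sum_modEq hsp hinj hlk1 hlk (REP_notBad hp1 hp1B)
    (REP_notBad hp0 hp0B) (REP_notBad hv1 hv1B) (REP_notBad hv0 hv0B) e1
  obtain ⟨rfl, rfl, f2, g2⟩ := code_sum_modEq hsp hinj hlk2 hlk (REP_notBad hp2 hp2B)
    (REP_notBad hp0 hp0B) (REP_notBad hv2 hv2B) (REP_notBad hv0 hv0B) e2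
  have n01 : ¬ (p1 = p0 ∧ v1 = v0) := by
    rintro ⟨rfl, rfl⟩
    apply h01
    apply Prod.ext <;>
    rcases hc0 with ⟨h, h'⟩ | ⟨h, h'⟩ <;> rcases hc1 with ⟨h1, h1'⟩ | ⟨h1, h1'⟩ <;> omega
  have n02 : ¬ (p2 = p0 ∧ v2 = v0) := by
    rintro ⟨rfl, rfl⟩
    apply h02
    apply Prod.ext <;>
    rcases hc0 with ⟨h, h'⟩ | ⟨h, h'⟩ <;> rcases hc2 with ⟨h1, h1'⟩ | ⟨h1, h1'⟩ <;> omega
  have n12 : ¬ (p2 = p1 ∧ v2 = v1) := by
    rintro ⟨rfl, rfl⟩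
    apply h12
    apply Prod.ext <;>
    rcases hc1 with ⟨h, h'⟩ | ⟨h, h'⟩ <;> rcases hc2 with ⟨h1, h1'⟩ | ⟨h1, h1'⟩ <;> omega
  rcases hlk.lt_or_eq with hlt | heq
  · -- different levels: `p0` has been removed
    apply hp0B
    unfold Bad
    rw [Finset.mem_filter]
    refine ⟨hp0, Or.inr ⟨l2, hk0, hlt,
      ⟨∏ j ∈ range l2, s j, ∏ j ∈ Ico l2 k2, s j, p0, p1, p2, v0, v1, v2⟩, ?_, rfl⟩⟩
    unfold tupS
    rw [Finset.mem_filter]
    refine ⟨Finset.mem_image.2 ⟨(p0, p1, p2, v0, v1, v2), ?_, rfl⟩, ?_, ?_, ?_⟩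
    · simp only [Finset.mem_product]
      exact ⟨hp0, hp1, hp2, hv0, hv1, hv2⟩
    · exact ⟨g1, g2, f1, f2, n01, n02, n12⟩
    · intro j hj
      exact ⟨REP_notBad hp0 hp0B j hj, REP_notBad hp1 hp1B j hj, REP_notBad hp2 hp2B j hj⟩
    · intro j hj
      exact ⟨REP_notBad hv0 hv0B j hj, REP_notBad hv1 hv1B j hj, REP_notBad hv2 hv2B j hj⟩
  · -- the same level
    subst heq
    obtain ⟨q0, b0⟩ := hPmem _ _ hp0
    obtain ⟨q1, b1⟩ := hPmem _ _ hp1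
    obtain ⟨r0, c0⟩ := hPmem _ _ hv0
    obtain ⟨r1, c1⟩ := hPmem _ _ hv1
    have hR := (prod_range_bounds hm2 (fun j (_ : j < _) => hs j) (k := l2)).1
    have hpow : ∀ a b : ℕ, a ≤ 2 ^ u l2 → b ≤ 2 ^ u l2 → a * b ≤ ∏ j ∈ range l2, s j := by
      intro a b ha hb
      calc a * b ≤ 2 ^ u l2 * 2 ^ u l2 := Nat.mul_le_mul ha hb
        _ = 2 ^ (2 * u l2) := by rw [two_mul, pow_add]
        _ ≤ 2 ^ (sg m l2 - 2 * l2) := Nat.pow_le_pow_right (by norm_num) (hsq _ hk0)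
        _ ≤ _ := hR
    have a0 := hpow _ _ b0 c0
    have a1 := hpow _ _ b1 c1
    have hpos0 : 0 < p0 * v0 := Nat.mul_pos q0.pos r0.pos
    have hpos1 : 0 < p1 * v1 := Nat.mul_pos q1.pos r1.pos
    have heq : p1 * v1 = p0 * v0 := by
      rcases le_total (p1 * v1) (p0 * v0) with h | h
      · have h3 := (Nat.modEq_iff_dvd' h).1 f1
        have h4 := Nat.eq_zero_of_dvd_of_lt h3 (by omega)
        omega
      · have h3 := (Nat.modEq_iff_dvd' h).1 f1.symm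
        have h4 := Nat.eq_zero_of_dvd_of_lt h3 (by omega)
        omega
    have hd : p1 ∣ p0 * v0 := ⟨v1, heq.symm⟩
    rcases (q1.dvd_mul).1 hd with h | h
    · have hpp : p1 = p0 := (Nat.prime_dvd_prime_iff_eq q1 q0).1 h
      apply n01
      refine ⟨hpp, ?_⟩
      rw [hpp] at heq
      exact Nat.eq_of_mul_eq_mul_left q0.pos heq
    · have hpp : p1 = v0 := (Nat.prime_dvd_prime_iff_eq q1 r0).1 h
      have hvv : v1 = p0 := by
        rw [hpp, mul_comm p0] at heq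
        exact Nat.eq_of_mul_eq_mul_left r0.pos heq
      subst hpp hvv
      apply h01
      apply Prod.ext <;>
      rcases hc0 with ⟨h, h'⟩ | ⟨h, h'⟩ <;> rcases hc1 with ⟨h1, h1'⟩ | ⟨h1, h1'⟩ <;> omega
-- END REP

end Pool.Agent.TwR
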