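import Pool.Agent.TwR.Defs

/-! row LG: the digit `lg` -/

namespace Pool.Agent.TwR

open Finset

-- BEGIN LG
/-- `x = q` is an admissible value, the chosen value lies in the interval -/
theorem lg_mem {q : ℕ} (hq : 2 ≤ q) (a : ℕ) : q ≤ lg q a ∧ lg q a ≤ 2 * q - 2 := by
  unfold lg
  split_ifs with h
  · exact ⟨h.choose_spec.1, h.choose_spec.2.1⟩
  · exact ⟨le_refl q, by omega⟩

private theorem LG_ex {q a : ℕ} (hq : q.Prime) (ha : ¬ q ∣ a) : ∃ x, q ≤ x ∧ x ≤ 2 * q - 2 ∧ gen q ^ x = (a : ZMod q) := by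
  have hF : Fact q.Prime := ⟨hq⟩
  have h2 := hq.two_le
  have hg : ∃ g : (ZMod q)ˣ, ∀ y : (ZMod q)ˣ, y ∈ Subgroup.zpowers g := IsCyclic.exists_generator
  have he : gen q = ((hg.choose : (ZMod q)ˣ) : ZMod q) := by
    unfold gen
    rw [dif_pos hg]
  have hs := hg.choose_spec
  obtain ⟨g, hgg⟩ : ∃ g, g = hg.choose := ⟨_, rfl⟩
  rw [← hgg] at he hs
  have ha0 : (a : ZMod q) ≠ 0 := by
    intro h0
    exact ha ((ZMod.natCast_eq_zero_iff a q).1 h0)
  obtain ⟨n, hn⟩ := (mem_powers_iff_mem_zpowers).2 (hs (Units.mk0 (a : ZMod q) ha0))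
  have hn' : g ^ n = Units.mk0 (a : ZMod q) ha0 := hn
  have hN : g ^ (q - 1) = 1 := ZMod.units_pow_card_sub_one_eq_one q g
  obtain ⟨N, rfl⟩ : ∃ N, q = N + 1 := ⟨q - 1, by omega⟩
  rw [Nat.add_sub_cancel] at hN
  have hN0 : 0 < N := by omega
  obtain ⟨m, hm⟩ : ∃ m, m + (N + 1) = n + N * (N + 1) := by
    refine ⟨n + N * (N + 1) - (N + 1), ?_⟩
    have : N + 1 ≤ N * (N + 1) := Nat.le_mul_of_pos_left _ hN0
    omega
  have hdm := Nat.div_add_mod m N
  have hlt := Nat.mod_lt m hN0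
  refine ⟨N + 1 + m % N, by omega, by omega, ?_⟩
  have h3 : g ^ (N + 1 + m % N) = g ^ n := by
    have e1 : g ^ (N + 1 + m % N) * (g ^ N) ^ (m / N) = g ^ n * (g ^ N) ^ (N + 1) := by
      rw [← pow_mul, ← pow_mul, ← pow_add, ← pow_add]
      congr 1
      omega
    rwa [hN, one_pow, one_pow, mul_one, mul_one] at e1
  rw [he, ← Units.val_pow_eq_pow_val, h3, hn', Units.val_mk0]

/-- if `q` is prime and does not divide `a`, then `gen q ^ lg q a = a` in `ZMod q`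
(the unit group of `ZMod q` is cyclic of order `q - 1`, so every residue of exponents modulo
`q - 1` occurs in `[q, 2q - 2]`) -/
theorem lg_spec {q a : ℕ} (hq : q.Prime) (ha : ¬ q ∣ a) : gen q ^ lg q a = (a : ZMod q) := by
  have h := LG_ex hq ha
  unfold lg
  rw [dif_pos h]
  exact h.choose_spec.2.2

theorem lg_mul {q a b c d : ℕ} (hq : q.Prime) (ha : ¬ q ∣ a) (hb : ¬ q ∣ b) (hc : ¬ q ∣ c)
    (hd : ¬ q ∣ d) (h : lg q a + lg q b = lg q c + lg q d) : a * b ≡ c * d [MOD q] := by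
  rw [← ZMod.natCast_eq_natCast_iff, Nat.cast_mul, Nat.cast_mul, ← lg_spec hq ha, ← lg_spec hq hb, ← lg_spec hq hc, ← lg_spec hq hd,
    ← pow_add, ← pow_add, h]

theorem lg_inj {q a b : ℕ} (hq : q.Prime) (ha : ¬ q ∣ a) (hb : ¬ q ∣ b)
    (h : lg q a = lg q b) : a ≡ b [MOD q] := by
  rw [← ZMod.natCast_eq_natCast_iff, ← lg_spec hq ha, ← lg_spec hq hb, h]
-- END LG

end Pool.Agent.TwR
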