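import Pool.Agent.TwR.Num
import Pool.Agent.TwR.Cfg

/-! The choice of the parameters. -/

namespace Pool.Agent.TwR

open Finset Filter

/-- everything that is needed about the exponents -/
structure Params (β' : ℝ) (m u : ℕ → ℕ) (k0 : ℕ) : Prop where
  m2 : ∀ j, m j + 2 ≤ m (j + 1)
  m0 : 2 ≤ m 0
  ne : ∀ j, (Pr (m j)).Nonempty
  u2 : ∀ k, k0 ≤ k → 2 ≤ u k
  sq : ∀ k, k0 ≤ k → 2 * u k ≤ sg m k - 2 * k
  num : ∀ k l, k0 ≤ l → l < k → Num (2 ^ u k) (2 ^ u l) (2 ^ (sg m l - 2 * l))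
    (2 ^ (sg m k - sg m l - 2 * (k - l)))
  card : ∀ k, k0 ≤ k → 4 * k ≤ (Pr (u k)).card
  main : ∀ k l, k0 ≤ l → l < k → 2 ^ (sg m l - 2 * l) ≤ 2 ^ u k * 2 ^ u l →
    2 ^ (sg m k - sg m l - 2 * (k - l)) ≤ 2 ^ u k →
    4 * (k : ℝ) * 2 ^ (k + 1) * bnd ((2 ^ u k : ℕ) : ℝ) ((2 ^ u l : ℕ) : ℝ)
      ((2 ^ (sg m l - 2 * l) : ℕ) : ℝ) ((2 ^ (sg m k - sg m l - 2 * (k - l)) : ℕ) : ℝ)
      ((2 ^ (sg m k - sg m l) : ℕ) : ℝ) ≤
      ((Pr (u k)).card : ℝ) * ∏ j ∈ range k, ((Pr (m j)).card : ℝ)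
  dens : ∀ k, k0 ≤ k → (((2 ^ (sg m (k + 1) + 2 * (k + 1)) : ℕ) : ℝ)) ^ β' ≤
    ((Pr (u k)).card : ℝ) / 2

/-- the exponent inequality at one pair of levels -/
theorem main_ineq {β : ℝ} {m : ℕ → ℕ} {D g k l : ℕ} {δ P Q : ℝ}
    (hA : ∀ x y a b k : ℝ, 0 ≤ x → 0 ≤ y → 0 ≤ k → a ≤ β * x → b ≤ β * y →
      y - 2 * k ≤ a + b → 4 * a + 5 * b - 2 * x - 2 * y + 6 * k ≤ - δ * x + 10 * k)
    (hB : ∀ x y a b k : ℝ, 0 ≤ x → 0 ≤ y → 0 ≤ k → a ≤ β * x → b ≤ β * y →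
      x - y - 2 * k ≤ a → 3 * a + 3 * b - x - 2 * y + 4 * k ≤ - δ * x + 10 * k)
    (hm : ∀ j, m j + 2 ≤ m (j + 1)) (hm0 : 2 ≤ m 0) (hl : l < k) {a b : ℕ}
    (ha : (a : ℝ) ≤ β * sg m k) (hb : (b : ℝ) ≤ β * sg m l)
    (h1 : 2 ^ (sg m l - 2 * l) ≤ 2 ^ a * 2 ^ b)
    (h2 : 2 ^ (sg m k - sg m l - 2 * (k - l)) ≤ 2 ^ a)
    (hP : (2 : ℝ) ^ ((a : ℝ) - g - (D + 1) * k) ≤ P)
    (hQ : (2 : ℝ) ^ ((sg m k : ℝ) - ((D : ℝ) + g) * ((k : ℝ) + 1) ^ 2) ≤ Q)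
    (hL : (40 + 2 * D + 2 * g) * ((k : ℝ) + 1) ^ 2 ≤ δ * sg m k) :
    4 * (k : ℝ) * 2 ^ (k + 1) * bnd ((2 ^ a : ℕ) : ℝ) ((2 ^ b : ℕ) : ℝ)
      ((2 ^ (sg m l - 2 * l) : ℕ) : ℝ) ((2 ^ (sg m k - sg m l - 2 * (k - l)) : ℕ) : ℝ)
      ((2 ^ (sg m k - sg m l) : ℕ) : ℝ) ≤ P * Q := by
  have h20 : (0 : ℝ) < 2 := by norm_num
  have hk0 : (0 : ℝ) ≤ k := Nat.cast_nonneg k
  have hlk : (l : ℝ) ≤ k := by exact_mod_cast hl.le
  have hl0 : (0 : ℝ) ≤ l := Nat.cast_nonneg l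
  have e1 : 2 * l ≤ sg m l := two_mul_le_sg hm hm0 l
  have e2 : sg m l + 2 * (k - l) ≤ sg m k := sg_sub_ge hm hm0 hl.le
  have e3 : l ≤ k := hl.le
  have c1 : ((sg m l - 2 * l : ℕ) : ℝ) = (sg m l : ℝ) - 2 * l := by
    rw [Nat.cast_sub e1]; push_cast; ring
  have c2 : ((sg m k - sg m l : ℕ) : ℝ) = (sg m k : ℝ) - sg m l := by
    rw [Nat.cast_sub (by omega)]
  have c3 : ((sg m k - sg m l - 2 * (k - l) : ℕ) : ℝ) = (sg m k : ℝ) - sg m l - 2 * (k - l) := by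
    rw [Nat.cast_sub (by omega), c2, Nat.cast_mul, Nat.cast_sub e3]; push_cast; ring
  have h1' : (sg m l : ℝ) - 2 * l ≤ a + b := by
    rw [← pow_add] at h1
    have := (Nat.pow_le_pow_iff_right (by norm_num : 1 < 2)).1 h1
    rw [← c1]
    exact_mod_cast this
  have h2' : (sg m k : ℝ) - sg m l - 2 * (k - l) ≤ a := by
    have := (Nat.pow_le_pow_iff_right (by norm_num : 1 < 2)).1 h2
    rw [← c3]
    exact_mod_cast this
  set x : ℝ := (sg m k : ℝ) with hx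
  set y : ℝ := (sg m l : ℝ) with hy
  have hx0 : 0 ≤ x := Nat.cast_nonneg _
  have hy0 : 0 ≤ y := Nat.cast_nonneg _
  have A := hA x y a b k hx0 hy0 hk0 ha hb (by linarith)
  have B := hB x y a b k hx0 hy0 hk0 ha hb (by linarith)
  have hcast : ∀ n : ℕ, ((2 ^ n : ℕ) : ℝ) = (2 : ℝ) ^ (n : ℝ) := by
    intro n
    rw [Real.rpow_natCast]
    push_cast
    rfl
  rw [hcast, hcast, hcast, hcast, hcast, c1, c2, c3]
  have hb1 := bnd_rpow (a : ℝ) (b : ℝ) (y - 2 * l) (x - y - 2 * (k - l)) (x - y)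
  have hE : bnd ((2 : ℝ) ^ (a : ℝ)) ((2 : ℝ) ^ (b : ℝ)) ((2 : ℝ) ^ (y - 2 * l))
      ((2 : ℝ) ^ (x - y - 2 * (k - l))) ((2 : ℝ) ^ (x - y)) ≤
      (2 : ℝ) ^ (9 + x + a - δ * x + 10 * k) := by
    refine hb1.trans ?_
    have t1 : (2 : ℝ) ^ (8 + 5 * (a : ℝ) + 5 * b + (x - y) - 3 * (y - 2 * l) -
        2 * (x - y - 2 * (k - l))) ≤ (2 : ℝ) ^ (8 + x + a - δ * x + 10 * k) := by
      refine Real.rpow_le_rpow_of_exponent_le (by norm_num) ?_
      linarith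
    have t2 : (2 : ℝ) ^ (6 + 4 * (a : ℝ) + 3 * b + (x - y) - 2 * (y - 2 * l) -
        (x - y - 2 * (k - l))) ≤ (2 : ℝ) ^ (8 + x + a - δ * x + 10 * k) := by
      refine Real.rpow_le_rpow_of_exponent_le (by norm_num) ?_
      linarith
    have t3 : (2 : ℝ) ^ (9 + x + a - δ * x + 10 * k) =
        2 * (2 : ℝ) ^ (8 + x + a - δ * x + 10 * k) := by
      rw [show 9 + x + a - δ * x + 10 * k = 1 + (8 + x + a - δ * x + 10 * k) by ring,
        Real.rpow_add h20, Real.rpow_one]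
    linarith
  have hK : 4 * (k : ℝ) * 2 ^ (k + 1) ≤ (2 : ℝ) ^ (2 * (k : ℝ) + 3) := by
    have t1 : (k : ℝ) ≤ 2 ^ k := by exact_mod_cast (Nat.lt_two_pow_self (n := k)).le
    have t2 : (2 : ℝ) ^ (2 * (k : ℝ) + 3) = 4 * 2 ^ k * 2 ^ (k + 1) := by
      rw [show 2 * (k : ℝ) + 3 = ((2 * k + 3 : ℕ) : ℝ) by push_cast; ring, Real.rpow_natCast]
      ring
    rw [t2]
    gcongr
  calc 4 * (k : ℝ) * 2 ^ (k + 1) * bnd ((2 : ℝ) ^ (a : ℝ)) ((2 : ℝ) ^ (b : ℝ))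
        ((2 : ℝ) ^ (y - 2 * l)) ((2 : ℝ) ^ (x - y - 2 * (k - l))) ((2 : ℝ) ^ (x - y))
      ≤ (2 : ℝ) ^ (2 * (k : ℝ) + 3) * (2 : ℝ) ^ (9 + x + a - δ * x + 10 * k) := by
        refine mul_le_mul hK hE ?_ (Real.rpow_nonneg h20.le _)
        unfold bnd
        positivity
    _ = (2 : ℝ) ^ ((2 * (k : ℝ) + 3) + (9 + x + a - δ * x + 10 * k)) :=
        (Real.rpow_add h20 _ _).symm
    _ ≤ (2 : ℝ) ^ (((a : ℝ) - g - (D + 1) * k) + (x - ((D : ℝ) + g) * ((k : ℝ) + 1) ^ 2)) := by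
        refine Real.rpow_le_rpow_of_exponent_le (by norm_num) ?_
        have hD0 : (0 : ℝ) ≤ D := Nat.cast_nonneg D
        have hg0 : (0 : ℝ) ≤ g := Nat.cast_nonneg g
        have q1 : (k : ℝ) ≤ ((k : ℝ) + 1) ^ 2 := by nlinarith
        have q2 : (1 : ℝ) ≤ ((k : ℝ) + 1) ^ 2 := by nlinarith
        have q3 : (D : ℝ) * k ≤ D * ((k : ℝ) + 1) ^ 2 := mul_le_mul_of_nonneg_left q1 hD0
        have q4 : (g : ℝ) * 1 ≤ g * ((k : ℝ) + 1) ^ 2 := mul_le_mul_of_nonneg_left q2 hg0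
        nlinarith
    _ = (2 : ℝ) ^ ((a : ℝ) - g - (D + 1) * k) *
        (2 : ℝ) ^ (x - ((D : ℝ) + g) * ((k : ℝ) + 1) ^ 2) := Real.rpow_add h20 _ _
    _ ≤ P * Q := mul_le_mul hP hQ (Real.rpow_nonneg h20.le _)
        ((Real.rpow_nonneg h20.le _).trans hP)

theorem exists_params {β' : ℝ} (h1 : 2 / 5 < β') (h2 : β' < √6 - 2) :
    ∃ (m u : ℕ → ℕ) (k0 : ℕ), Params β' m u k0 := by
  have h20 : (0 : ℝ) < 2 := by norm_num
  obtain ⟨β, hβ1, hβ2⟩ : ∃ β, β' < β ∧ β < √6 - 2 := exists_between h2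
  obtain ⟨f1, f2, f3⟩ := beta_facts (h1.trans hβ1) hβ2
  obtain ⟨δ1, hδ1, hA1⟩ := expA (h1.trans hβ1) f1 f2
  obtain ⟨δ2, hδ2, hB1⟩ := expB (h1.trans hβ1) f1 f3
  obtain ⟨δ, hδ, hδa, hδb⟩ : ∃ δ : ℝ, 0 < δ ∧ δ ≤ δ1 ∧ δ ≤ δ2 :=
    ⟨min δ1 δ2, lt_min hδ1 hδ2, min_le_left _ _, min_le_right _ _⟩
  have hA : ∀ x y a b k : ℝ, 0 ≤ x → 0 ≤ y → 0 ≤ k → a ≤ β * x → b ≤ β * y →
      y - 2 * k ≤ a + b → 4 * a + 5 * b - 2 * x - 2 * y + 6 * k ≤ - δ * x + 10 * k := by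
    intro x y a b k q1 q2 q3 q4 q5 q6
    have := hA1 x y a b k q1 q2 q3 q4 q5 q6
    have : δ * x ≤ δ1 * x := mul_le_mul_of_nonneg_right hδa q1
    linarith
  have hB : ∀ x y a b k : ℝ, 0 ≤ x → 0 ≤ y → 0 ≤ k → a ≤ β * x → b ≤ β * y →
      x - y - 2 * k ≤ a → 3 * a + 3 * b - x - 2 * y + 4 * k ≤ - δ * x + 10 * k := by
    intro x y a b k q1 q2 q3 q4 q5 q6
    have := hB1 x y a b k q1 q2 q3 q4 q5 q6
    have : δ * x ≤ δ2 * x := mul_le_mul_of_nonneg_right hδb q1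
    linarith
  obtain ⟨c, hc0, mc, hc⟩ := card_Pr_ge
  obtain ⟨g, hg⟩ : ∃ g : ℕ, (2 : ℝ) ^ (-(g : ℝ)) ≤ c := by
    obtain ⟨g, hg⟩ := exists_pow_lt_of_lt_one hc0 (by norm_num : (1 / 2 : ℝ) < 1)
    refine ⟨g, ?_⟩
    rw [Real.rpow_neg h20.le, Real.rpow_natCast]
    rw [one_div, inv_pow] at hg
    exact hg.le
  have hβ'0 : 0 < β' := by linarith
  obtain ⟨lam, hl1, hl2⟩ : ∃ lam : ℝ, 1 < lam ∧ lam < β / β' :=
    exists_between (by rw [lt_div_iff₀ hβ'0]; linarith)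
  have hl3 : β' * lam < β := by
    rw [lt_div_iff₀ hβ'0] at hl2
    linarith
  obtain ⟨m, hm, hm0, hP1, hP2, D, hD⟩ := exists_m hl1 (max mc 8)
  have hm8 : 8 ≤ m 0 := (le_max_right _ _).trans hm0
  have hmc : mc ≤ m 0 := (le_max_left _ _).trans hm0
  have hm2 : 2 ≤ m 0 := by omega
  have hβ0 : 0 < β := by linarith
  have hgap : 0 < 1 - 2 * β := by linarith
  have hgap2 : 0 < β - β' * lam := by linarith
  have hD0 : (0 : ℝ) ≤ D := Nat.cast_nonneg D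
  have hg0 : (0 : ℝ) ≤ g := Nat.cast_nonneg g
  have hev : ∀ᶠ k : ℕ in atTop,
      (40 + 2 * D + 2 * g) * ((k : ℝ) + 1) ^ 2 ≤ δ * sg m k ∧
      5 * ((k : ℝ) + 1) ^ 2 ≤ (1 - 2 * β) * sg m k ∧
      4 * (D + g + 10) * ((k : ℝ) + 1) ^ 2 ≤ β * sg m k ∧
      (mc : ℝ) + 4 ≤ β * sg m k ∧
      (D + g + 10) * ((k : ℝ) + 1) ^ 2 ≤ (β - β' * lam) * sg m k ∧
      (sg m (k + 1) : ℝ) + 2 * (k + 1) ≤ lam * sg m k := by
    filter_upwards [hP1 ((40 + 2 * D + 2 * g) / δ), hP1 (5 / (1 - 2 * β)),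
      hP1 (4 * (D + g + 10) / β), hP1 (((mc : ℝ) + 4) / β), hP1 ((D + g + 10) / (β - β' * lam)),
      hP2] with k q1 q2 q3 q4 q5 q6
    have hk : (1 : ℝ) ≤ ((k : ℝ) + 1) ^ 2 := by
      have : (0 : ℝ) ≤ k := Nat.cast_nonneg k
      nlinarith
    have gen : ∀ a b t X : ℝ, 0 < b → a / b * t ≤ X → a * t ≤ b * X := by
      intro a b t X hb h
      have h3 : a * t = b * (a / b * t) := by field_simp
      rw [h3]
      exact mul_le_mul_of_nonneg_left h hb.le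
    refine ⟨gen _ _ _ _ hδ q1, gen _ _ _ _ hgap q2, gen _ _ _ _ hβ0 q3, ?_,
      gen _ _ _ _ hgap2 q5, q6⟩
    have q7 := gen _ _ _ _ hβ0 q4
    have hmc0 : (0 : ℝ) ≤ mc := Nat.cast_nonneg mc
    nlinarith
  obtain ⟨k0, hk0⟩ := eventually_atTop.1 hev
  set u : ℕ → ℕ := fun k => ⌊β * sg m k⌋₊ with hu
  have hX0 : ∀ k, (0 : ℝ) ≤ sg m k := fun k => Nat.cast_nonneg _
  have hule : ∀ k, (u k : ℝ) ≤ β * sg m k := fun k =>
    Nat.floor_le (mul_nonneg hβ0.le (hX0 k))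
  have hult : ∀ k, β * sg m k < (u k : ℝ) + 1 := fun k => Nat.lt_floor_add_one _
  have hkk : ∀ k : ℕ, (0 : ℝ) ≤ k := fun k => Nat.cast_nonneg k
  have hk1 : ∀ k : ℕ, (k : ℝ) + 1 ≤ ((k : ℝ) + 1) ^ 2 := fun k => by nlinarith [hkk k]
  have hDk : ∀ k : ℕ, (D : ℝ) * (k + 1) ≤ D * ((k : ℝ) + 1) ^ 2 := fun k =>
    mul_le_mul_of_nonneg_left (hk1 k) hD0
  have hgk : ∀ k : ℕ, (g : ℝ) * (k + 1) ≤ g * ((k : ℝ) + 1) ^ 2 := fun k =>
    mul_le_mul_of_nonneg_left (hk1 k) hg0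
  have hbX : ∀ k, 0 ≤ β * sg m k := fun k => mul_nonneg hβ0.le (hX0 k)
  have hsgu : ∀ k, sg m k ≤ 2 ^ ((D + 1) * k) := sg_le_two_pow hD
  have hPr : ∀ k, k0 ≤ k → (2 : ℝ) ^ ((u k : ℝ) - g - (D + 1) * k) ≤ (Pr (u k)).card := by
    intro k hk
    obtain ⟨q1, q2, q3, q4, q5, q6⟩ := hk0 k hk
    have hlt := hult k
    have hmcu : mc + 1 ≤ u k := by
      have : ((mc + 1 : ℕ) : ℝ) ≤ u k := by push_cast; linarith
      exact_mod_cast this
    refine Pr_lower hc hg (by omega) (by omega) ?_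
    have h3 : u k ≤ sg m k := by
      have : (u k : ℝ) ≤ sg m k := by
        have := hule k
        have := hbX k
        have := mul_nonneg hgap.le (hX0 k)
        linarith
      exact_mod_cast this
    calc (u k : ℝ) ≤ ((2 ^ ((D + 1) * k) : ℕ) : ℝ) := by exact_mod_cast h3.trans (hsgu k)
      _ = (2 : ℝ) ^ ((D + 1 : ℝ) * k) := by
        rw [Nat.cast_pow, ← Real.rpow_natCast]
        push_cast
        rfl
  refine ⟨m, u, k0, ?_⟩
  refine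
    { m2 := hm
      m0 := hm2
      ne := ?_
      u2 := ?_
      sq := ?_
      num := ?_
      card := ?_
      main := ?_
      dens := ?_ }
  · intro j
    have h3 : mc ≤ m j := hmc.trans (by have := m_ge hm j; omega)
    have h4 : 1 ≤ m j := by have := m_ge hm j; omega
    have h5 := hc (m j) h3
    have h6 : (0 : ℝ) < c * 2 ^ m j / m j := by
      have : (0 : ℝ) < m j := by exact_mod_cast h4
      positivity
    have h7 : (0 : ℝ) < (Pr (m j)).card := h6.trans_le h5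
    exact Finset.card_pos.1 (by exact_mod_cast h7)
  · intro k hk
    obtain ⟨q1, q2, q3, q4, q5, q6⟩ := hk0 k hk
    have hlt := hult k
    have : ((2 : ℕ) : ℝ) ≤ u k := by
      push_cast
      have : (0 : ℝ) ≤ mc := Nat.cast_nonneg mc
      linarith
    exact_mod_cast this
  · intro k hk
    obtain ⟨q1, q2, q3, q4, q5, q6⟩ := hk0 k hk
    have h3 : 2 * u k + 2 * k ≤ sg m k := by
      have : ((2 * u k + 2 * k : ℕ) : ℝ) ≤ sg m k := by
        push_cast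
        have := hule k
        have := hk1 k
        have := hkk k
        linarith
      exact_mod_cast this
    omega
  · intro k l hl hlk
    obtain ⟨q1, q2, q3, q4, q5, q6⟩ := hk0 k (hl.trans hlk.le)
    obtain ⟨r1, r2, r3, r4, r5, r6⟩ := hk0 l hl
    have e1 : 2 * l ≤ sg m l := two_mul_le_sg hm hm2 l
    have e2 : sg m l + 2 * (k - l) ≤ sg m k := sg_sub_ge hm hm2 hlk.le
    have e3 : sg m l + m l ≤ sg m k := sg_add_m_le hlk
    have e4 : 8 ≤ m l := by have := m_ge hm l; omega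
    have e5 : u l + 2 ≤ u k := by
      have h3 : ((sg m l + 8 : ℕ) : ℝ) ≤ sg m k := by exact_mod_cast (by omega)
      push_cast at h3
      have h4 : ((u l + 2 : ℕ) : ℝ) < u k + 1 := by
        push_cast
        have := hule l
        have := hult k
        have h5 : β * ((sg m l : ℝ) + 8) ≤ β * sg m k := mul_le_mul_of_nonneg_left h3 hβ0.le
        linarith
      have : u l + 2 < u k + 1 := by exact_mod_cast h4
      omega
    have e6 : u l < sg m l - 2 * l := by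
      have h3 : u l + 2 * l < sg m l := by
        have : ((u l + 2 * l : ℕ) : ℝ) < sg m l := by
          push_cast
          have := hule l
          have := hk1 l
          have := hkk l
          have := hbX l
          linarith
        exact_mod_cast this
      omega
    have e7 : 3 + u k + u l < sg m k - 2 * k := by
      have h3 : 3 + u k + u l + 2 * k < sg m k := by
        have : ((3 + u k + u k + 2 * k : ℕ) : ℝ) < sg m k := by
          push_cast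
          have := hule k
          have := hk1 k
          have := hkk k
          linarith
        have h4 : 3 + u k + u k + 2 * k < sg m k := by exact_mod_cast this
        omega
      omega
    refine ⟨Nat.one_le_two_pow, ?_, ?_, by positivity, ?_⟩
    · calc 4 * 2 ^ u l = 2 ^ (u l + 2) := by rw [pow_add]; ring
        _ ≤ 2 ^ u k := Nat.pow_le_pow_right (by norm_num) e5
    · exact Nat.pow_lt_pow_right (by norm_num) e6
    · calc 8 * 2 ^ u k * 2 ^ u l = 2 ^ (3 + u k + u l) := by rw [pow_add, pow_add]; norm_num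
        _ < 2 ^ (sg m k - 2 * k) := Nat.pow_lt_pow_right (by norm_num) e7
        _ = 2 ^ (sg m l - 2 * l) * 2 ^ (sg m k - sg m l - 2 * (k - l)) := by
            rw [← pow_add]
            congr 1
            omega
  · intro k hk
    obtain ⟨q1, q2, q3, q4, q5, q6⟩ := hk0 k hk
    have h3 : (4 : ℝ) * k ≤ (Pr (u k)).card := by
      refine le_trans ?_ (hPr k hk)
      have t1 : (k : ℝ) ≤ 2 ^ k := by exact_mod_cast (Nat.lt_two_pow_self (n := k)).le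
      have t2 : (2 : ℝ) ^ ((k : ℝ) + 2) = 4 * 2 ^ k := by
        rw [show (k : ℝ) + 2 = ((k + 2 : ℕ) : ℝ) by push_cast; ring, Real.rpow_natCast]
        ring
      calc (4 : ℝ) * k ≤ 4 * 2 ^ k := by gcongr
        _ = (2 : ℝ) ^ ((k : ℝ) + 2) := t2.symm
        _ ≤ _ := by
          refine Real.rpow_le_rpow_of_exponent_le (by norm_num) ?_
          have := hult k
          have := hk1 k
          have := hkk k
          have := hDk k
          have := hgk k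
          have := mul_nonneg hD0 (hkk k)
          have := mul_nonneg hg0 (hkk k)
          linarith
    exact_mod_cast h3
  · intro k l hl hlk g1 g2
    obtain ⟨q1, q2, q3, q4, q5, q6⟩ := hk0 k (hl.trans hlk.le)
    exact main_ineq hA hB hm hm2 hlk (hule k) (hule l) g1 g2 (hPr k (hl.trans hlk.le))
      (prod_lower hc hg hm hmc hm2 hD k) q1
  · intro k hk
    obtain ⟨q1, q2, q3, q4, q5, q6⟩ := hk0 k hk
    have hcast : ((2 ^ (sg m (k + 1) + 2 * (k + 1)) : ℕ) : ℝ) =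
        (2 : ℝ) ^ ((sg m (k + 1) : ℝ) + 2 * (k + 1)) := by
      rw [Nat.cast_pow, ← Real.rpow_natCast]
      push_cast
      rfl
    rw [hcast, ← Real.rpow_mul h20.le]
    have h3 : (2 : ℝ) ^ ((u k : ℝ) - g - (D + 1) * k - 1) =
        (2 : ℝ) ^ ((u k : ℝ) - g - (D + 1) * k) / 2 := by
      rw [Real.rpow_sub h20, Real.rpow_one]
    calc (2 : ℝ) ^ (((sg m (k + 1) : ℝ) + 2 * (k + 1)) * β')
        ≤ (2 : ℝ) ^ ((u k : ℝ) - g - (D + 1) * k - 1) := by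
          refine Real.rpow_le_rpow_of_exponent_le (by norm_num) ?_
          have s1 : ((sg m (k + 1) : ℝ) + 2 * (k + 1)) * β' ≤ lam * sg m k * β' :=
            mul_le_mul_of_nonneg_right q6 hβ'0.le
          have := hult k
          have := hk1 k
          have := hkk k
          have := hDk k
          have := hgk k
          have := mul_nonneg hD0 (hkk k)
          have := mul_nonneg hg0 (hkk k)
          linarith
      _ = (2 : ℝ) ^ ((u k : ℝ) - g - (D + 1) * k) / 2 := h3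
      _ ≤ ((Pr (u k)).card : ℝ) / 2 := by
          have := hPr k hk
          linarith

end Pool.Agent.TwR
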